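import Pool.Agent.Q54.EM.StmG

/-!
# Project EM, groups E and F: the two extreme zones, and the final assembly

The first extreme zone is `0.8 k < l < k` (small atoms and one big atom); `W2` is the zone `r/l > 0.62`.
-/

set_option autoImplicit false

namespace Pool.Agent.Q54.EM

open Finset

/-- VEH: `VV ≤ hh (l - hh)`: `COV` and `IDT` give `lam (VV + hh et) ≤ et lam l` (drop `vw ≥ 0`), so
`VV ≤ et (l - hh)`, and `et ≤ hh`, `l ≥ hh` (`HL`). -/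
def S_VEH : Prop := ∀ (ι : Type) [Fintype ι] (p x : ι → ℝ) (k : ℕ) (l : ℝ), 1 ≤ k → Law p x →
  0 < mu p x → mu p x < 1 → KK k p x l → VV k p x ≤ hh k p x * (l - hh k p x)

/-- CAN (Cantelli): for `0 ≤ y < hh`, `P(S_k < k - y) ≥ W (hh - y)^2/(VV + (hh - y)^2)`. With
`D = (k - S)` on `S < k`, `H = hh`, `V = VV`, `g = H - y > 0`: for `u = V/g`,
`1[D ≤ y] ≤ (H - D + u)^2/(g + u)^2`, so `E[1[D ≤ y]; S<k] ≤ W (V + u^2)/(g+u)^2 = W V/(V + g^2)`. And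
`1[S < k - y] = 1[S<k] - 1[S<k] 1[D ≤ y]`. -/
def S_CAN : Prop := ∀ (ι : Type) [Fintype ι] (p x : ι → ℝ) (k : ℕ), 1 ≤ k → Law p x → mu p x < 1 →
  ∀ y : ℝ, 0 ≤ y → y < hh k p x →
  PR p x k k * (hh k p x - y) ^ 2 ≤ PR p x k (k - y) * (VV k p x + (hh k p x - y) ^ 2)

/-- GPN (numerical): for `a ≤ 0.15456` and `a + 0.05 ≤ u ≤ 0.5`,
`(u - a)(0.04 + (1 - 1.3 u)^2) > 0.04 (0.8 - a)`. The difference is concave in `u` on this range, and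
positive at both ends. -/
def S_GPN : Prop := ∀ a u : ℝ, 0 ≤ a → a ≤ 15456 / 100000 → a + 1 / 20 ≤ u → u ≤ 1 / 2 →
  4 / 100 * (8 / 10 - a) < (u - a) * (4 / 100 + (1 - 13 / 10 * u) ^ 2)

/-- GAP: in the zone `0.8 k < l < k` no atom lies in `(r + k/20, k/2]`. Let `a = r/k`, `t = 1 - l/k`,
`q = r/l`, `e = l/hh - 1 ≤ 0.2 t` (`NT` (1), `CS` and `EB`). Let `x = x i`, `u = x/k ∈ (a + 1/20, 1/2]`.
`hh = l/(1+e) ≥ 0.8 k/1.04`, so `x/hh ≤ 1.3 u < 1`. The KKT equality, `PR p x (k-1) y ≥ PR p x k y`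
(`POS`) and `CAN` give `1 - x/l ≥ lam (hh-x)^2/(VV + (hh-x)^2)`, so
`x/l ≤ q + lam VV/(VV + (hh-x)^2)`. By `VEH`, `VV ≤ e hh^2`, so
`VV/(VV+(hh-x)^2) ≤ e/(e + (1-x/hh)^2) ≤ 0.2 t/(0.2 t + (1 - 1.3 u)^2)`. Multiply by `1 - t = l/k`
(`(1-t) q = a`, `(1-t) lam = 1 - t - a`): `u - a ≤ (1-t-a) 0.2 t/(0.2 t + (1-1.3u)^2)
≤ (0.8 - a) 0.04/(0.04 + (1-1.3u)^2)`, against `GPN`. -/
def S_GAP : Prop := ∀ (ι : Type) [Fintype ι] (p x : ι → ℝ) (k : ℕ) (r l : ℝ), 6 ≤ k → RC k r →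
  Opt k p x r l → 8 / 10 * (k : ℝ) < l → l < k → ∀ i, x i ≤ r + k / 20 ∨ (k : ℝ) / 2 < x i

/-- the weights of the small atoms -/
noncomputable def sw {ι : Type} (k : ℕ) (p x : ι → ℝ) : ι → ℝ :=
  fun i => if x i ≤ (k : ℝ) / 2 then p i else 0

/-- the weights of the big atoms -/
noncomputable def bw {ι : Type} (k : ℕ) (p x : ι → ℝ) : ι → ℝ :=
  fun i => if (k : ℝ) / 2 < x i then p i else 0

/-- DEC: decomposition by the number of big atoms. (1) for `y ≤ k/2` a tuple with sum `< y` has no big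
entry (induction on `n`); (2) for `f` vanishing on `[k, ∞)`, by induction on `n`,
`EE p x n f = EE sw x n f + n ∑ j bw j EE sw x (n-1) (f(· + x j))` (two big entries have sum `> k`;
after one big entry the remaining function vanishes on `[k/2, ∞)`, so (1) applies to the rest); put
`f = 1[s < k]`; (3) total mass and first moment of `sw`-tuples (induction). -/
def S_DEC : Prop := ∀ (ι : Type) [Fintype ι] (p x : ι → ℝ) (k : ℕ), 1 ≤ k → Law p x →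
  (∀ (n : ℕ) (y : ℝ), y ≤ (k : ℝ) / 2 → PR (sw k p x) x n y = PR p x n y) ∧
  (PR p x k k = PR (sw k p x) x k k + k * ∑ j, bw k p x j * PR p x (k - 1) (k - x j)) ∧
  (∀ n : ℕ, EE (sw k p x) x n (fun _ => 1) = (1 - ∑ j, bw k p x j) ^ n) ∧
  (∀ n : ℕ, EE (sw k p x) x (n + 1) (fun s => s) =
    (n + 1 : ℝ) * (∑ j, sw k p x j * x j) * (1 - ∑ j, bw k p x j) ^ n)

/-- SMA: upper tails for small atoms. Weights `w ≥ 0` of total mass at most `1`, with `x i ≤ d` whenever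
`w i ≠ 0`; `m = ∑ w x`, `A n y = EE w x n 1[y ≤ s]`. Size bias (`SZB`) gives, for `y ≥ 0`,
`y A (n+1) y ≤ E[S ; S ≥ y] = (n+1) ∑ w x A n (y - x) ≤ (n+1) m A n (y - d)`. Three steps from `(k, k)`:
`A k k ≤ m A (k-1) (k-d)`, `(k-d) A (k-1)(k-d) ≤ (k-1) m A (k-2)(k-2d)`,
`(k-2d) A (k-2)(k-2d) ≤ (k-2) m`. -/
def S_SMA : Prop := ∀ (ι : Type) [Fintype ι] (w x : ι → ℝ) (k : ℕ) (d : ℝ), 3 ≤ k → (∀ i, 0 ≤ w i) →
  ∑ i, w i ≤ 1 → (∀ i, 0 ≤ x i) → (∀ i, w i ≠ 0 → x i ≤ d) → 0 ≤ d → 2 * d < k →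
  EE w x k (fun s => if (k : ℝ) ≤ s then 1 else 0) ≤
    (∑ i, w i * x i) * EE w x (k - 1) (fun s => if (k : ℝ) - d ≤ s then 1 else 0) ∧
  EE w x k (fun s => if (k : ℝ) ≤ s then 1 else 0) * ((1 - d / k) * (1 - 2 * (d / k))) ≤
    (∑ i, w i * x i) ^ 3

/-- W1N (numerical part of the zone `0.8 k < l < k`). Write `T = 1 - r^k = (1-a)^k`,
`P1 = (1-pp)^(k-1)`, `pp = a - u/k`. (i) `ms ≤ 0.2602`, `A ≤ ms^3/((1-b)(1-2b)) ≤ 0.0375`. (ii)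
`(1-pp)^k = (1 - a + u/k)^k ≥ T + u T/(1-a)`, so `W < T` gives
`A > u T/(1-a) + (r-u) w1 dl/(1-t)` (call the right side `Y ≥ 0`; so `A > 0`); `u ≤ 0.0375/0.365 ≤ 0.103`;
`W ≥ T - A ≥ 0.3275`, `w1 ≥ (T-A)/(1-q)`, so `dl ≤ A (1-t)(1-q)/((r-u)(T-A)) ≤ 0.113`
(`(1-t)(1-q) = 1 - t - a ≤ 0.8 + (0.2 - t)`; use `ms ≤ 1.301 t` if needed, or simply
`(1-t)(1-q) ≤ 1` and `A ≤ 0.0375 (t/0.2)^3`). (iii) `P1 ≤ 1.13 T/(1-a)`:
`P1 (1-a)/T = (1 + u/(k(1-a)))^(k-1) ≤ exp(u/(1-a))`. (iv) `(1-1/k)/(1-pp) ≤ 1` (`k pp ≤ r < 1`), `ms =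
r (t+dl) + u (1-t-dl) ≤ t + dl + u`, `ms > 0`; so with `d' = t + dl - s ∈ [0, dl]` the last hypothesis gives
`(1-b-s) A/ms ≤ P1 (ms - s) + s w1 (s-t)/(1-t) ≤ P1 (d' + u) + (t+dl) w1 (dl - d')/(1-t)
≤ 1.13 u T/(1-a) + 1.56 (r-u) w1 dl/(1-t) ≤ 1.56 A`
(for the coefficient of `d'`: `P1 (1-t)/((r-u) w1) ≤ 1.13 (T/(T-A)) (1-t-a)/((1-a)(r-u)) ≤ 1.56`), while
`(1-b-s)/ms ≥ (1 - 0.2046 - 0.313)/0.2602 ≥ 1.85`. -/
def S_W1N : Prop := ∀ (k : ℕ) (r t q a b pp u dl w1 W A ms s : ℝ), 6 ≤ k → a = r / k → 0 < a →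
  a ≤ 15456 / 100000 → 92 / 100 ≤ r → r < 1 → 365 / 1000 ≤ 1 - r ^ k → 1 - r ^ k ≤ 3679 / 10000 →
  (1 - a) ^ k = 1 - r ^ k → 0 < t → t ≤ 2 / 10 → q * (1 - t) = a → q < 1 → b = a + 1 / 20 →
  k * pp = r - u → 0 ≤ u → u ≤ r → 0 ≤ dl → W = w1 * (1 - q) → 0 < W → W < 1 - r ^ k →
  W = (1 - pp) ^ k - A + (r - u) * w1 * dl / (1 - t) →
  ms = r - (r - u) * (1 - t - dl) → ms ≤ 1301 / 1000 * t → 0 ≤ A →
  A * ((1 - b) * (1 - 2 * b)) ≤ ms ^ 3 → t ≤ s → s ≤ t + dl →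
  s * (1 - pp) ^ (k - 1) - (1 - 1 / k) * ms * (1 - pp) ^ (k - 2) + (1 - b - s) * A / ms ≤
    s * (w1 * (s - t) / (1 - t)) → False

/-- W1: there is no optimal law with `0.8 k < l < k`. Let `a = r/k`, `t = 1 - l/k`, `q = r/l`,
`b = a + 1/20`, `sw`, `bw` the small and big weights, `pp = ∑ bw`, `u = r - k pp ≥ 0` (field `b2`),
`ms = ∑ sw x`, `A = EE sw x k 1[k ≤ s]`. By `GAP`, `x i ≤ b k` if `sw i ≠ 0`. `ms ≤ 1.301 t`: by `THT`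
`lam (1 - hh/k) ≥ ∑ sw x (1 - x/l) ≥ ms (1 - b k/l)`, and `1 - hh/k = 1 - (1-t)/(1+e) ≤ t + e ≤ 1.2 t`
(`EB`), times `1 - t`: `(1-t-a) 1.2 t ≥ ms (1-t-a-1/20)`, `1-t-a ≥ 0.6454`. If `pp = 0` then
`PR p x k k = 1 - A ≥ 1 - 0.04` (`DEC`, `SMA`), against `PR < 1 - r^k ≤ 0.3679`. Otherwise let
`dl = (∑ bw (1 - x/k))/pp - t` and `s = 1 - x_j/k` for a big atom `j` with the largest `x_j`; `x_j ≤ l` gives
`s ≥ t`, and `s` is at most the mean `t + dl`. By the KKT equality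
`PR p x (k-1) (k - x i) = w1 (1 - x i/l) = w1 (s_i - t)/(1-t)`, so `DEC` (2) is
`W = (1-pp)^k - A + (r-u) w1 dl/(1-t)`. Mean: `r = ms + k pp (1 - t - dl)`. For the last hypothesis of
`W1N` use the pointwise inequality, for `σ ≥ 0` and `s < 1 - b`,
`s k 1[σ < s k] ≥ s k - σ + ((1-b) k - s k) 1[(1-b) k ≤ σ]`, integrated over `sw`-tuples of length
`k - 1` (`DEC` (1), (3); `s k = k - x_j < k/2`), divided by `k`, and `SMA` (first part, `d = b k`):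
`A ≤ ms EE sw x (k-1) 1[(1-b)k ≤ s]`. (`t ≤ s ≤ 1/2 < 1 - b`.) Then `W1N` (constants from `CS`). -/
def S_W1 : Prop := ∀ (ι : Type) [Fintype ι] (p x : ι → ℝ) (k : ℕ) (r l : ℝ), 6 ≤ k → RC k r →
  Opt k p x r l → 8 / 10 * (k : ℝ) < l → l < k → False

/-- KAP: for i.i.d. variables with `E X ≥ 1` which are close to `1`,
`E (y - S_j)^+ ≤ (3/2) P(S_j < y)` for `y ≤ j + 7/5`. Let `v2 = ∑ p (x-1)^2`, `d = ∑ p x - 1 ≥ 0`,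
`n (v2 + d) ≤ 0.066`, `j ≤ n`. Induction on `j`: `j = 0` is clear. Step to `j+1`, `D = y - (j+1)`. If
`D ≤ 2/5`, condition on the first variable: `(y - x i) - j ≤ 7/5`. If `2/5 < D ≤ 7/5`: with
`S = S_{j+1}`, `s = (j+1) v2`, `m' = (j+1) d`, `s + m' ≤ 0.066`: `E (y-S)^2 ≤ s + D^2` (variance at most
`s`, mean `y - E S = D - m' ∈ (0, D]`), so `E(y-S)^+ ≤ √(s + D^2)`; and by Cantelli
`P(S < y) ≥ (D-m')^2/(s + (D-m')^2)`. Then `√(s+D^2)(s + (D-m')^2) ≤ (3/2)(D-m')^2`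
(worst case `D = 7/5`, `s = 0.066`: `1.4234 · 1.0337 ≤ 1.472`; one may use `√(s+D^2) ≤ D + s/(2D)`). -/
def S_KAP : Prop := ∀ (ι : Type) [Fintype ι] (p x : ι → ℝ) (n : ℕ), (∀ i, 0 ≤ p i) → ∑ i, p i = 1 →
  (∀ i, 0 ≤ x i) → 1 ≤ ∑ i, p i * x i →
  n * (∑ i, p i * (x i - 1) ^ 2 + (∑ i, p i * x i - 1)) ≤ 66 / 1000 →
  ∀ (j : ℕ) (y : ℝ), j ≤ n → y ≤ j + 7 / 5 → GP p x j y ≤ 3 / 2 * PR p x j y

/-- THE: for i.i.d. variables as in `KAP` with `x i ≤ 1.613` when `p i ≠ 0`,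
`P(S_j ≥ z) ≤ 0.66 E (S_{j+1} - z)^+` for `z ≥ j + 0.267`, `j + 1 ≤ n`. Induction on `j`: `j = 0`: `P(0 ≥ z)`
is `0`. Step, `U = j + 1 - z`. If `U ≤ 0.12`: condition on the first variable,
`z - x i ≥ j + 0.88 - 1.613 = (j-1) + 0.267` (for `p i ≠ 0`). If `0.12 < U ≤ 0.733`: with `s = j v2`,
`m' = j d`, Cantelli gives `P(S_j ≥ z) ≤ s/(s + (1 - U - m')^2)` and `E(S_{j+1} - z)^+ ≥ E S_{j+1} - z ≥ U`;
`s/(s + (1-U-m')^2) ≤ 0.66 U` for `s + m' ≤ 0.066` (`s ↦ s/(s + (1 - U - m')^2)` is increasing, so put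
`s = 0.066 - m'`; then decreasing in `m'`, so `m' = 0`; check `0.066 ≤ 0.66 U (0.066 + (1-U)^2)` on
`[0.12, 0.733]`: a cubic in `U`, at the ends the two sides have ratio about `0.99`). -/
def S_THE : Prop := ∀ (ι : Type) [Fintype ι] (p x : ι → ℝ) (n : ℕ), (∀ i, 0 ≤ p i) → ∑ i, p i = 1 →
  (∀ i, 0 ≤ x i) → (∀ i, p i ≠ 0 → x i ≤ 1613 / 1000) → 1 ≤ ∑ i, p i * x i →
  n * (∑ i, p i * (x i - 1) ^ 2 + (∑ i, p i * x i - 1)) ≤ 66 / 1000 →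
  ∀ (j : ℕ) (z : ℝ), j + 1 ≤ n → j + 267 / 1000 ≤ z →
  EE p x j (fun s => if z ≤ s then 1 else 0) ≤ 66 / 100 * EE p x (j + 1) (fun s => max (s - z) 0)

/-- MXP: let `pc` be the conditional law given `X > 0`, `P = P(X > 0) > 0`. For `f` monotone on `[0, ∞)`,
`E f(S_n) ≤ P^n E_c f(S_n) + (1 - P^n) E_c f(S_{n-1})` for `n ≥ 1`. Induction on `n`:
`E f(S_{n+1}) = (1-P) E f(S_n) + P ∑ pc i E f(S_n + x i)`; the first expectation is at most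
`E_c f(S_n)` (also by induction, `E_c f(S_n)` being monotone in `n`), the second by the induction
hypothesis for `f(· + x i)`. -/
def S_MXP : Prop := ∀ (ι : Type) [Fintype ι] (p x : ι → ℝ) (P : ℝ), Law p x → 0 < P →
  P = ∑ i, (if 0 < x i then p i else 0) →
  ∀ (n : ℕ) (f : ℝ → ℝ), (∀ s t : ℝ, 0 ≤ s → s ≤ t → f s ≤ f t) →
  EE p x (n + 1) f ≤ P ^ (n + 1) * EE (fun i => if 0 < x i then p i / P else 0) x (n + 1) f +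
    (1 - P ^ (n + 1)) * EE (fun i => if 0 < x i then p i / P else 0) x n f

/-- LZ: the identity `k ∑_{x>0} p (x-1)^2 = l (lam hh - k (1-r)) - k (r - P)`, `P = P(X > 0)`, at a KKT
point with mean `r`: by `IDT` `k ∑ p x^2 = k r^2 + et lam l`, `et = hh - k(1-r)`, and `(1 - lam) l = r`
(`LMB`), so `k ∑ p x^2 = l (lam hh - k(1-r)) + k r`. -/
def S_LZ : Prop := ∀ (ι : Type) [Fintype ι] (p x : ι → ℝ) (k : ℕ) (r l : ℝ), 1 ≤ k → Law p x →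
  mu p x = r → r < 1 → KK k p x l →
  k * ∑ i, (if 0 < x i then p i * (x i - 1) ^ 2 else 0) =
    l * (lam k p x * hh k p x - k * (1 - r)) - k * (r - ∑ i, (if 0 < x i then p i else 0))

/-- W2: there is no optimal law with `l (lam hh - k (1-r)) ≤ 0.06` and `l ≤ 1.613`. Let `P = P(X > 0) ≤ r`
(field `b1`), `pc i = p i/P` on `x i > 0`, `d = ∑ pc x - 1 = (r - P)/P ≥ 0`, `v2 = ∑ pc (x-1)^2`. By `LZ`,
`k (v2 + d) = l (lam hh - k(1-r))/P ≤ 0.06/P`, and `k (r - P) ≤ 0.06`, so `P ≥ 0.92 - 0.01 = 0.91` and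
`k (v2 + d) ≤ 0.066`. Let `g = PR pc x k k`, `h1 = 1 - PR pc x (k-1) k`. `KAP` (`j = k`, `y = k`):
`GP pc x k k ≤ 1.5 g`. `THE` (`j = k-1`, `z = k`): `h1 ≤ 0.66 E (S_k - k)^+ = 0.66 (GP pc x k k + k d)`.
`MXP` with `f = 1[k ≤ s]`: `1 - PR p x k k ≤ P^k (1 - g) + (1 - P^k) h1`. And
`r^k = P^k (1+d)^k ≥ P^k (1 + k d)`; also `P^k = r^k/(1+d)^k ≥ r^k exp(-k d) ≥ 0.632 · 0.93 ≥ 1/2`
(`1 - r^k ≤ 0.3679` by `CS`). So `1 - PR ≤ P^k - P^k g + (1-P^k)(0.99 g + 0.66 k d) ≤ P^k (1 + k d) ≤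
r^k`, against `PR p x k k < 1 - r^k`. -/
def S_W2 : Prop := ∀ (ι : Type) [Fintype ι] (p x : ι → ℝ) (k : ℕ) (r l : ℝ), 6 ≤ k → RC k r →
  Opt k p x r l → (∀ i, x i ≤ l) → l ≤ 1613 / 1000 →
  l * (lam k p x * hh k p x - k * (1 - r)) ≤ 6 / 100 → False

/-- FIN: no optimal law for `k ≥ 6`: `NUM` gives `Num`; `Z0`: `l < k`; if `r/l ≤ 0.62` then `ZT` gives
`0.8 k < l`, against `W1`; if `r/l > 0.62` then `ZE` and `W2`. -/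
def S_FIN : Prop := ∀ k : ℕ, 6 ≤ k → KEY k

end Pool.Agent.Q54.EM
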