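import Pool.Agent.Q54.EM.Def
import Pool.Agent.W205.K5.Stm

/-!
# Project EM: from `KEY k` to `IID k`
-/

set_option autoImplicit false

namespace Pool.Agent.Q54.EM

open Finset Pool.Agent.W593.IR Pool.Agent.W205.K5

theorem EE_add {ι : Type} [Fintype ι] (p x : ι → ℝ) (n : ℕ) : ∀ f g : ℝ → ℝ,
    EE p x n (fun s => f s + g s) = EE p x n f + EE p x n g := by
  induction n with
  | zero => intro f g; rfl
  | succ n ih =>
    intro f g
    simp only [EE]
    rw [← Finset.sum_add_distrib]
    refine Finset.sum_congr rfl fun i _ => ?_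
    rw [ih (fun s => f (s + x i)) (fun s => g (s + x i))]
    ring

theorem EE_smul {ι : Type} [Fintype ι] (p x : ι → ℝ) (n : ℕ) : ∀ (c : ℝ) (f : ℝ → ℝ),
    EE p x n (fun s => c * f s) = c * EE p x n f := by
  induction n with
  | zero => intro c f; rfl
  | succ n ih =>
    intro c f
    simp only [EE]
    rw [Finset.mul_sum]
    refine Finset.sum_congr rfl fun i _ => ?_
    rw [ih c (fun s => f (s + x i))]
    ring

/-- the law on `Option V`: value `0` with probability `1 - r`, otherwise `x` with weights `q` -/
theorem EE_option {V : Type} [Fintype V] (q z : V → ℝ) (r : ℝ) (n : ℕ) : ∀ f : ℝ → ℝ,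
    EE (fun o : Option V => o.elim (1 - r) (fun v => r * q v)) (fun o : Option V => o.elim 0 z) n f =
      ∑ j ∈ range (n + 1), (n.choose j : ℝ) * (1 - r) ^ (n - j) * r ^ j * EE q z j f := by
  induction n with
  | zero => intro f; simp [EE]
  | succ n ih =>
    intro f
    have h1 : EE (fun o : Option V => o.elim (1 - r) (fun v => r * q v))
        (fun o : Option V => o.elim 0 z) (n + 1) f =
        (1 - r) * EE (fun o : Option V => o.elim (1 - r) (fun v => r * q v))
        (fun o : Option V => o.elim 0 z) n f + r * ∑ v, q v *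
          EE (fun o : Option V => o.elim (1 - r) (fun v => r * q v))
        (fun o : Option V => o.elim 0 z) n (fun s => f (s + z v)) := by
      simp only [EE, Fintype.sum_option, Option.elim, add_zero]
      rw [Finset.mul_sum]
      congr 1
      refine Finset.sum_congr rfl fun v _ => ?_
      ring
    rw [h1, ih f]
    have h2 : ∑ v, q v * EE (fun o : Option V => o.elim (1 - r) (fun v => r * q v))
        (fun o : Option V => o.elim 0 z) n (fun s => f (s + z v)) =
        ∑ j ∈ range (n + 1), (n.choose j : ℝ) * (1 - r) ^ (n - j) * r ^ j * EE q z (j + 1) f := by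
      simp_rw [fun v => ih (fun s => f (s + z v))]
      simp_rw [Finset.mul_sum]
      rw [Finset.sum_comm]
      refine Finset.sum_congr rfl fun j _ => ?_
      simp only [EE]
      rw [Finset.mul_sum]
      refine Finset.sum_congr rfl fun v _ => ?_
      ring
    rw [h2, Finset.mul_sum, Finset.mul_sum]
    rw [Finset.sum_range_succ' (fun j => ((n + 1).choose j : ℝ) * (1 - r) ^ (n + 1 - j) * r ^ j *
      EE q z j f) (n + 1)]
    have h3 : ∀ j ∈ range (n + 1), ((n + 1).choose (j + 1) : ℝ) * (1 - r) ^ (n + 1 - (j + 1)) *
        r ^ (j + 1) * EE q z (j + 1) f =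
        r * ((n.choose j : ℝ) * (1 - r) ^ (n - j) * r ^ j * EE q z (j + 1) f) +
        (n.choose (j + 1) : ℝ) * (1 - r) ^ (n - j) * r ^ (j + 1) * EE q z (j + 1) f := by
      intro j _
      rw [Nat.choose_succ_succ, show n + 1 - (j + 1) = n - j by omega]
      push_cast
      ring
    rw [Finset.sum_congr rfl h3, Finset.sum_add_distrib]
    have h4 : ∑ j ∈ range (n + 1), (1 - r) * ((n.choose j : ℝ) * (1 - r) ^ (n - j) * r ^ j *
        EE q z j f) =
        ∑ j ∈ range (n + 1), (n.choose (j + 1) : ℝ) * (1 - r) ^ (n - j) * r ^ (j + 1) *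
          EE q z (j + 1) f + ((n + 1).choose 0 : ℝ) * (1 - r) ^ (n + 1 - 0) * r ^ 0 * EE q z 0 f := by
      rw [Finset.sum_range_succ' (fun j => (1 - r) * ((n.choose j : ℝ) * (1 - r) ^ (n - j) * r ^ j *
        EE q z j f)) n]
      rw [Finset.sum_range_succ (fun j => (n.choose (j + 1) : ℝ) * (1 - r) ^ (n - j) * r ^ (j + 1) *
          EE q z (j + 1) f) n]
      rw [Nat.choose_succ_self]
      have : ∀ j ∈ range n, (1 - r) * ((n.choose (j + 1) : ℝ) * (1 - r) ^ (n - (j + 1)) * r ^ (j + 1) *
          EE q z (j + 1) f) = (n.choose (j + 1) : ℝ) * (1 - r) ^ (n - j) * r ^ (j + 1) *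
          EE q z (j + 1) f := by
        intro j hj
        have hj' := Finset.mem_range.mp hj
        rw [show n - j = (n - (j + 1)) + 1 by omega, pow_succ]
        ring
      rw [Finset.sum_congr rfl this]
      simp
      ring
    rw [h4]
    ring

/-- counting tuples -/
theorem EE_count {V : Type} [Fintype V] (y : V → ℝ) (c : ℝ) (k : ℝ) (hk : 0 < k) (j : ℕ) :
    EE (fun _ : V => c) (fun v => k * y v) j (fun s => if s < k then 1 else 0) =
      c ^ j * (NL y j : ℝ) := by
  have gen : ∀ (j : ℕ) (a : ℝ), EE (fun _ : V => c) (fun v => k * y v) j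
      (fun s => if s + k * a < k then 1 else 0) =
      c ^ j * (({f : Fin j → V | ∑ i, y (f i) + a < 1}.ncard : ℕ) : ℝ) := by
    intro j
    induction j with
    | zero =>
      intro a
      simp only [EE, pow_zero, one_mul, zero_add]
      by_cases h : a < 1
      · have h1 : k * a < k := by nlinarith
        rw [if_pos h1]
        have : {f : Fin 0 → V | ∑ i, y (f i) + a < 1} = Set.univ := by
          ext f; simp [h]
        rw [this, Set.ncard_univ]
        simp
      · have h1 : ¬ k * a < k := by
          push Not at h ⊢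
          nlinarith
        rw [if_neg h1]
        have : {f : Fin 0 → V | ∑ i, y (f i) + a < 1} = ∅ := by
          ext f; simp [h]
        rw [this]
        simp
    | succ j ih =>
      intro a
      simp only [EE]
      have h1 : ∀ v : V, EE (fun _ : V => c) (fun v => k * y v) j
          (fun s => if s + k * y v + k * a < k then (1 : ℝ) else 0) =
          c ^ j * (({f : Fin j → V | ∑ i, y (f i) + (y v + a) < 1}.ncard : ℕ) : ℝ) := by
        intro v
        rw [← ih (y v + a)]
        congr 1
        funext s
        have : s + k * y v + k * a = s + k * (y v + a) := by ring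
        rw [this]
      simp_rw [h1]
      have h2 : (({f : Fin (j + 1) → V | ∑ i, y (f i) + a < 1}.ncard : ℕ) : ℝ) =
          ∑ v : V, (({f : Fin j → V | ∑ i, y (f i) + (y v + a) < 1}.ncard : ℕ) : ℝ) := by
        classical
        rw [← Nat.cast_sum]
        congr 1
        have e1 : ∀ (m : ℕ) (P : (Fin m → V) → Prop) [DecidablePred P],
            {f : Fin m → V | P f}.ncard = ∑ f : Fin m → V, if P f then 1 else 0 := by
          intro m P _
          rw [← Finset.card_filter, ← Set.ncard_coe_finset]
          congr 1
          ext f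
          simp
        rw [e1]
        simp_rw [fun v => e1 j (fun f => ∑ i, y (f i) + (y v + a) < 1)]
        rw [← Fintype.sum_prod_type']
        rw [← (Fin.consEquiv (fun _ : Fin (j + 1) => V)).sum_comp]
        refine Finset.sum_congr rfl fun q _ => ?_
        refine if_congr ?_ rfl rfl
        have h5 : ∑ i, y ((Fin.consEquiv (fun _ : Fin (j + 1) => V)) q i) =
            y q.1 + ∑ i : Fin j, y (q.2 i) := by
          rw [Fin.sum_univ_succ]
          rfl
        rw [h5]
        constructor <;> intro h6 <;> linarith
      rw [h2, Finset.mul_sum]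
      refine Finset.sum_congr rfl fun v _ => ?_
      ring
  have := gen j 0
  simp only [mul_zero, add_zero] at this
  rw [this]
  rfl

theorem key_iid (k : ℕ) (hk : 2 ≤ k) (h : KEY k) : IID k := by
  intro V _ _ y hy hs ρ h0 h1 hr
  have hk0 : (0 : ℝ) < k := by positivity
  have hV : (0 : ℝ) < Fintype.card V := by exact_mod_cast Fintype.card_pos
  have hc := h (Option V) (fun o => o.elim (1 - ρ) (fun v => ρ * (1 / (Fintype.card V : ℝ))))
    (fun o => o.elim 0 (fun v => k * y v)) ρ ?_ ?_ ?_ ?_ ⟨h0, h1, hr⟩
  · have e1 := EE_option (fun _ : V => 1 / (Fintype.card V : ℝ)) (fun v => k * y v) ρ k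
      (fun s => if s < k then 1 else 0)
    unfold PR at hc
    rw [e1] at hc
    unfold Th
    refine hc.trans (le_of_eq ?_)
    refine Finset.sum_congr rfl fun j _ => ?_
    rw [EE_count y _ k hk0 j]
    rw [one_div, inv_pow]
    field_simp
  · intro o
    cases o with
    | none => simpa using h1.le
    | some v => simp only [Option.elim]; positivity
  · rw [Fintype.sum_option]
    simp only [Option.elim, Finset.sum_const, Finset.card_univ, nsmul_eq_mul]
    field_simp
    ring
  · intro o
    cases o with
    | none => simp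
    | some v => simp only [Option.elim]; have := hy v; positivity
  · unfold mu
    rw [Fintype.sum_option]
    simp only [Option.elim, mul_zero, zero_add]
    have : ∑ v : V, ρ * (1 / (Fintype.card V : ℝ)) * (k * y v) =
        ρ * (1 / (Fintype.card V : ℝ)) * (k * ∑ v, y v) := by
      rw [Finset.mul_sum, Finset.mul_sum]
    rw [this, hs]
    field_simp

end Pool.Agent.Q54.EM
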