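import Pool.Agent.Q54.EM.StmE
import Pool.Agent.Q54.EM.Bridge
import Pool.Agent.Q102.EM.W1
import Pool.Agent.Q102.EM.W1N
import Pool.Agent.Q111.EM.TAF
import Pool.Agent.Q119.EM.Flw
import Pool.Agent.Q119.EM.Rmo
import Pool.Agent.Q119.EM.Tmo
import Pool.Agent.Q119.EM.Vp3
import Pool.Agent.Q137.EM.TX
import Pool.Agent.Q137.EM.VP1
import Pool.Agent.Q137.EM.VP2
import Pool.Agent.Q137.EM.VX
import Pool.Agent.Q137.EM.XX
import Pool.Agent.Q146.EM.PLF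
import Pool.Agent.Q146.EM.THA
import Pool.Agent.Q151.EM.Dec
import Pool.Agent.Q151.EM.Kkt
import Pool.Agent.Q151.EM.Mn
import Pool.Agent.Q153.EM.Ff
import Pool.Agent.Q154.EM.BXB
import Pool.Agent.Q154.EM.BXC
import Pool.Agent.Q162.EM.Zon
import Pool.Agent.Q176.EM.BXA
import Pool.Agent.Q176.EM.CS
import Pool.Agent.Q184.EM.K3b
import Pool.Agent.Q195.EM.BXD
import Pool.Agent.Q195.EM.NT
import Pool.Agent.Q198.EM.EXI
import Pool.Agent.Q198.EM.GAP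
import Pool.Agent.Q202.EM.PW
import Pool.Agent.Q209.EM.Kap
import Pool.Agent.Q210.EM.Til
import Pool.Agent.Q223.EM.BXE
import Pool.Agent.Q223.EM.EB
import Pool.Agent.Q223.EM.PLS
import Pool.Agent.Q225.EM.SER
import Pool.Agent.Q241.EM.HL
import Pool.Agent.Q251.EM.CID
import Pool.Agent.Q251.EM.COV
import Pool.Agent.Q251.EM.P0
import Pool.Agent.Q257.EM.BP
import Pool.Agent.Q257.EM.CND
import Pool.Agent.Q257.EM.EEL
import Pool.Agent.Q257.EM.TUP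
import Pool.Agent.Q297.EM.LZ
import Pool.Agent.Q299.EM.VA1
import Pool.Agent.Q299.EM.VA2
import Pool.Agent.Q299.EM.VB
import Pool.Agent.Q49.EM.FIN
import Pool.Agent.Q53.EM.FL1
import Pool.Agent.Q53.EM.FL2
import Pool.Agent.Q53.EM.FL3
import Pool.Agent.Q68.EM.MXP
import Pool.Agent.Q68.EM.NUM
import Pool.Agent.Q68.EM.STA
import Pool.Agent.Q68.EM.W2
import Pool.Agent.Q75.EM.MB
import Pool.Agent.Q75.EM.SMA
import Pool.Agent.Q84.EM.VA3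
import Pool.Agent.Q96.EM.A
import Pool.Agent.Q96.EM.B
import Pool.Agent.Q98.EM.E3
import Pool.Agent.Q98.EM.GEN
import Pool.Agent.Q98.EM.IDT
import Pool.Agent.Q98.EM.LH
import Pool.Agent.Q98.EM.LMB
import Pool.Agent.Q98.EM.POS
import Pool.Agent.Q98.EM.THT

/-!
# Project EM: all steps together
-/

set_option autoImplicit false

namespace Pool.Agent.Q54.EM

theorem t_EEL : S_EEL := Pool.Agent.Q257.EM.eel
theorem t_TUP : S_TUP := Pool.Agent.Q257.EM.tup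
theorem t_ONE : S_ONE := Pool.Agent.Q257.EM.one t_TUP
theorem t_TWO : S_TWO := Pool.Agent.Q257.EM.two t_TUP
theorem t_SZB : S_SZB := Pool.Agent.Q257.EM.szb t_TUP t_ONE
theorem t_CND : S_CND := Pool.Agent.Q257.EM.cnd t_SZB t_EEL
theorem t_TIL : S_TIL := Pool.Agent.Q210.EM.til
theorem t_DRV : S_DRV := Pool.Agent.Q210.EM.drv
theorem t_VA1 : S_VA1 := Pool.Agent.Q299.EM.va1 t_ONE t_EEL
theorem t_VA2 : S_VA2 := Pool.Agent.Q299.EM.va2 t_ONE t_EEL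
theorem t_VA3 : S_VA3 := Pool.Agent.Q84.EM.va3 t_ONE t_TWO t_EEL
theorem t_VB : S_VB := Pool.Agent.Q299.EM.vb t_TUP t_VA1 t_VA2 t_VA3 t_EEL
theorem t_POS : S_POS := Pool.Agent.Q98.EM.pos t_EEL
theorem t_LMB : S_LMB := Pool.Agent.Q98.EM.lmb t_POS t_EEL
theorem t_THT : S_THT := Pool.Agent.Q98.EM.tht t_POS t_EEL t_SZB t_LMB
theorem t_IDT : S_IDT := Pool.Agent.Q98.EM.idt t_LMB t_THT t_POS
theorem t_CID : S_CID := Pool.Agent.Q251.EM.cid t_POS t_EEL t_SZB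
theorem t_GEN : S_GEN := Pool.Agent.Q98.EM.gen t_CID t_POS t_EEL
theorem t_COV : S_COV := Pool.Agent.Q251.EM.cov t_CID t_POS t_EEL
theorem t_LH : S_LH := Pool.Agent.Q98.EM.lh t_CND t_POS t_EEL
theorem t_E3 : S_E3 := Pool.Agent.Q98.EM.e3 t_EEL
theorem t_VX : S_VX := Pool.Agent.Q137.EM.vx t_VB t_LMB t_POS t_EEL t_SZB
theorem t_TX : S_TX := Pool.Agent.Q137.EM.tx
theorem t_XX : S_XX := Pool.Agent.Q137.EM.xx t_VX t_TX t_IDT t_COV t_LH t_THT t_LMB t_POS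
theorem t_VP1 : S_VP1 := Pool.Agent.Q137.EM.vp1 t_LMB t_POS t_EEL
theorem t_VP2 : S_VP2 := Pool.Agent.Q137.EM.vp2 t_LMB t_POS t_EEL
theorem t_VP3 : S_VP3 := Pool.Agent.Q119.EM.Vp3.vp3 t_LMB t_POS t_EEL
theorem t_PW : S_PW := Pool.Agent.Q202.EM.pw t_VP1 t_VP2 t_VP3 t_VB t_IDT t_LH t_THT t_LMB t_POS
theorem t_HL : S_HL := Pool.Agent.Q241.EM.hl t_COV t_IDT t_LH t_LMB t_POS t_EEL
theorem t_P0 : S_P0 := Pool.Agent.Q251.EM.p0 t_PW t_COV t_IDT t_LH t_LMB t_POS t_HL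
theorem t_FF : S_FF := Pool.Agent.Q153.EM.ff_job
theorem t_RMO : S_RMO := Pool.Agent.Q119.EM.Rmo.rmo t_FF
theorem t_THA : S_THA := Pool.Agent.Q146.EM.tha t_RMO t_FF
theorem t_FL1 : S_FL1 := Pool.Agent.Q54.EM.fl1
theorem t_FL2 : S_FL2 := Pool.Agent.Q54.EM.fl2 t_FL1
theorem t_FL3 : S_FL3 := Pool.Agent.Q54.EM.fl3 t_FL2 t_FL1 t_THA t_RMO t_FF
theorem t_TLT : S_TLT := Pool.Agent.Q210.EM.tlt t_TIL t_DRV t_POS t_EEL
theorem t_TMO : S_TMO := Pool.Agent.Q119.EM.Tmo.tmo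
theorem t_K3B : S_K3B := Pool.Agent.Q184.EM.k3b
theorem t_TLI : S_TLI := Pool.Agent.Q210.EM.tli t_TIL t_POS t_EEL
theorem t_TLQ : S_TLQ := Pool.Agent.Q210.EM.tlq t_TIL t_POS t_EEL
theorem t_FLW : S_FLW := Pool.Agent.Q119.EM.Flw.flw t_TLT t_TMO t_K3B t_TLI t_TLQ t_GEN t_LH t_CND t_IDT t_LMB t_HL t_POS t_EEL
theorem t_TAF : S_TAF := Pool.Agent.Q111.EM.taf t_FLW t_THA
theorem t_PLF : S_PLF := Pool.Agent.Q146.EM.plf t_FLW t_FL3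
theorem t_CS : S_CS := Pool.Agent.Q176.EM.cs
theorem t_SER : S_SER := Pool.Agent.Q225.EM.ser
theorem t_BXA : S_BXA := Pool.Agent.Q176.EM.bxa
theorem t_BXB : S_BXB := Pool.Agent.Q154.EM.bxb
theorem t_BXC : S_BXC := Pool.Agent.Q154.EM.bxc
theorem t_BXD : S_BXD := Pool.Agent.Q195.EM.bxd
theorem t_BXE : S_BXE := Pool.Agent.Q223.EM.bxe
theorem t_NT : S_NT := Pool.Agent.Q195.EM.nt t_CS
theorem t_EB : S_EB := Pool.Agent.Q223.EM.eb t_SER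
theorem t_E18 : S_E18 := Pool.Agent.Q162.EM.e18 t_SER
theorem t_BP : S_BP := Pool.Agent.Q257.EM.bp
theorem t_PLS : S_PLS := Pool.Agent.Q223.EM.pls t_NT t_CS t_SER
theorem t_Z0 : S_Z0 := Pool.Agent.Q162.EM.z0 t_NT t_CS t_SER
theorem t_ZT : S_ZT := Pool.Agent.Q257.EM.zt t_NT t_CS t_SER t_EB t_E18 t_BP t_PLS t_Z0 t_BXA t_BXB t_BXC t_BXD
theorem t_ZE : S_ZE := Pool.Agent.Q257.EM.ze t_NT t_CS t_BP t_BXE
theorem t_MIN : S_MIN := Pool.Agent.Q151.EM.min t_TUP t_EEL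
theorem t_MXT : S_MXT := Pool.Agent.Q96.EM.mxt t_EEL
theorem t_PSP : S_PSP := Pool.Agent.Q96.EM.psp t_TUP
theorem t_STR : S_STR := Pool.Agent.Q96.EM.str t_MXT t_PSP t_EEL
theorem t_MB1 : S_MB1 := Pool.Agent.Q75.EM.mb1 t_STR t_TUP t_EEL
theorem t_MB2 : S_MB2 := Pool.Agent.Q75.EM.mb2 t_STR t_TUP t_EEL
theorem t_DER : S_DER := Pool.Agent.Q96.EM.der t_EEL
theorem t_KKT : S_KKT := Pool.Agent.Q151.EM.kkt t_DER t_MB1 t_PSP t_TUP t_EEL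
theorem t_RES : S_RES := Pool.Agent.Q96.EM.res
theorem t_STA : S_STA := Pool.Agent.Q68.EM.sta t_MXT t_TUP t_EEL
theorem t_EXI : S_EXI := Pool.Agent.Q198.EM.exi t_STA t_MIN t_KKT t_MB1 t_MB2 t_RES t_EEL
theorem t_NUM : S_NUM := Pool.Agent.Q68.EM.num t_TAF t_PLF t_XX t_P0 t_E3 t_LH t_HL t_LMB t_POS
theorem t_VEH : S_VEH := Pool.Agent.Q96.EM.veh t_COV t_IDT t_HL t_LMB t_POS
theorem t_CAN : S_CAN := Pool.Agent.Q96.EM.can t_EEL t_POS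
theorem t_GPN : S_GPN := Pool.Agent.Q96.EM.gpn
theorem t_GAP : S_GAP := Pool.Agent.Q198.EM.gap t_NUM t_NT t_CS t_SER t_EB t_VEH t_CAN t_GPN t_POS t_LMB
theorem t_DEC : S_DEC := Pool.Agent.Q151.EM.dec t_EEL
theorem t_SMA : S_SMA := Pool.Agent.Q75.EM.sma t_SZB t_EEL
theorem t_W1N : S_W1N := Pool.Agent.Q102.EM.w1n
theorem t_W1 : S_W1 := Pool.Agent.Q102.EM.w1 t_GAP t_NUM t_NT t_CS t_SER t_EB t_THT t_DEC t_SMA t_W1N t_POS t_LMB t_EEL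
theorem t_KAP : S_KAP := Pool.Agent.Q209.EM.kap t_EEL
theorem t_THE : S_THE := Pool.Agent.Q209.EM.the t_EEL
theorem t_MXP : S_MXP := Pool.Agent.Q68.EM.mxp t_EEL
theorem t_LZ : S_LZ := Pool.Agent.Q297.EM.lz t_IDT t_LMB
theorem t_W2 : S_W2 := Pool.Agent.Q68.EM.w2 t_KAP t_THE t_MXP t_LZ t_CS t_EEL t_POS
theorem t_FIN : S_FIN := Pool.Agent.Q49.EM.fin t_EXI t_NUM t_Z0 t_ZT t_ZE t_W1 t_W2

end Pool.Agent.Q54.EM
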