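import Pool.Agent.Q54.EM.All
import Pool.Agent.Q54.EM.Bridge
import Pool.Agent.W205.K5.All

/-!
# The asymptotic Erdős matching conjecture, all uniformities
-/

set_option autoImplicit false

namespace Pool.Agent.Q54.EM

open Finset Pool.Agent.W890.SF Pool.Agent.W593.IR Pool.Agent.W205.K5 Filter Topology

/-- the i.i.d. inequality for all means, every `k ≥ 2` -/
theorem t_ALL (k : ℕ) (h2 : 2 ≤ k) : ALL k := by
  rcases Nat.lt_or_ge 5 k with h | h
  · exact Pool.Agent.W24.K5.all Pool.Agent.W205.K5.t_CRS Pool.Agent.W205.K5.t_ROOT t_LW k h2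
      (key_iid k h2 (t_FIN k (by omega)))
  · exact Pool.Agent.W205.K5.t_ALLk k h2 h

/-- the upper bound, every `k`, all `x` -/
theorem ubk (k : ℕ) (h2 : 2 ≤ k) (x : ℝ) (hx : 0 < x) (hx1 : x ≤ 1 / (k : ℝ)) :
    x = 1 / (k : ℝ) ∨ ((k : ℝ) * x < 1 ∧ UBS k x) := by
  rcases hx1.lt_or_eq with hlt | heq
  · right
    have hk0 : (0 : ℝ) < k := by positivity
    have h1 : (k : ℝ) * x < 1 := by
      rw [lt_div_iff₀ hk0] at hlt
      linarith
    exact ⟨h1, t_CLG k h2 x hx h1 (t_ALLIB k h2 (t_ALL k h2) x hx h1)⟩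
  · exact Or.inl heq

end Pool.Agent.Q54.EM
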