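import Mathlib

/-!
# Definitions for project EM (a sum of `k` i.i.d. nonnegative variables, threshold `k`)

A finite law is `p x : ι → ℝ` (the value `x i` has probability `p i`). `S_n` is the sum of `n`
independent copies. The threshold of `S_k` is the real number `k` itself.
-/

set_option autoImplicit false

namespace Pool.Agent.Q54.EM

open Finset

/-- `E f(S_n)` -/
noncomputable def EE {ι : Type} [Fintype ι] (p x : ι → ℝ) : ℕ → (ℝ → ℝ) → ℝ
  | 0, f => f 0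
  | n + 1, f => ∑ i, p i * EE p x n (fun s => f (s + x i))

/-- `E F(i_1, ..., i_n)` for `n` independent indices -/
noncomputable def TE {ι : Type} [Fintype ι] (p : ι → ℝ) (n : ℕ) (F : (Fin n → ι) → ℝ) : ℝ :=
  ∑ v : Fin n → ι, (∏ i, p (v i)) * F v

/-- `P(S_n < y)` -/
noncomputable def PR {ι : Type} [Fintype ι] (p x : ι → ℝ) (n : ℕ) (y : ℝ) : ℝ :=
  EE p x n (fun s => if s < y then 1 else 0)

/-- `E (y - S_n)^+` -/
noncomputable def GP {ι : Type} [Fintype ι] (p x : ι → ℝ) (n : ℕ) (y : ℝ) : ℝ :=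
  EE p x n (fun s => max (y - s) 0)

/-- `E ((y - S_n)^+)^2` -/
noncomputable def G2 {ι : Type} [Fintype ι] (p x : ι → ℝ) (n : ℕ) (y : ℝ) : ℝ :=
  EE p x n (fun s => (max (y - s) 0) ^ 2)

/-- the mean -/
noncomputable def mu {ι : Type} [Fintype ι] (p x : ι → ℝ) : ℝ := ∑ i, p i * x i

/-- the variance -/
noncomputable def va {ι : Type} [Fintype ι] (p x : ι → ℝ) : ℝ :=
  ∑ i, p i * x i ^ 2 - (∑ i, p i * x i) ^ 2

/-- the third central moment -/
noncomputable def k3 {ι : Type} [Fintype ι] (p x : ι → ℝ) : ℝ :=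
  ∑ i, p i * (x i - mu p x) ^ 3

/-- `∑ p i p j (x i) ((x j - x i)^+)^2 = E (1/2) (X - X')^2 min(X, X')` -/
noncomputable def vw {ι : Type} [Fintype ι] (p x : ι → ℝ) : ℝ :=
  ∑ i, ∑ j, p i * p j * (x i * (max (x j - x i) 0) ^ 2)

/-- a finite law with positive weights -/
structure Law {ι : Type} [Fintype ι] (p x : ι → ℝ) : Prop where
  pos : ∀ i, 0 < p i
  sum : ∑ i, p i = 1
  nn : ∀ i, 0 ≤ x i

/-- the equality in the Karush-Kuhn-Tucker condition -/
def KK {ι : Type} [Fintype ι] (k : ℕ) (p x : ι → ℝ) (l : ℝ) : Prop :=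
  0 < l ∧ ∀ i, PR p x (k - 1) (k - x i) = PR p x (k - 1) k * (1 - x i / l)

/-- `lam = P(S_k < k) / P(S_{k-1} < k)` -/
noncomputable def lam {ι : Type} [Fintype ι] (k : ℕ) (p x : ι → ℝ) : ℝ :=
  PR p x k k / PR p x (k - 1) k

/-- `hh = E(k - S_k | S_k < k)` -/
noncomputable def hh {ι : Type} [Fintype ι] (k : ℕ) (p x : ι → ℝ) : ℝ :=
  GP p x k k / PR p x k k

/-- `VV = Var(k - S_k | S_k < k)` -/
noncomputable def VV {ι : Type} [Fintype ι] (k : ℕ) (p x : ι → ℝ) : ℝ :=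
  G2 p x k k / PR p x k k - hh k p x ^ 2

/-- `et = hh - k (1 - mean)` -/
noncomputable def et {ι : Type} [Fintype ι] (k : ℕ) (p x : ι → ℝ) : ℝ :=
  hh k p x - k * (1 - mu p x)

/-- the raw covariance in the variance bound, for a function `f` of the index -/
noncomputable def CC {ι : Type} [Fintype ι] (k : ℕ) (p x f : ι → ℝ) : ℝ :=
  (k : ℝ) / 2 * ∑ a, ∑ z, p a * p z * ((x a - x z) * (f z - f a)) *
    PR p x (k - 1) (k - max (x a) (x z))

/-- the diagonal term in the variance bound -/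
noncomputable def PP {ι : Type} [Fintype ι] (k : ℕ) (p x f : ι → ℝ) : ℝ :=
  (k : ℝ) / 2 * ∑ a, ∑ z, p a * p z * (f z - f a) ^ 2 * PR p x (k - 1) (k - max (x a) (x z))

/-- the off-diagonal term in the variance bound -/
noncomputable def CR {ι : Type} [Fintype ι] (k : ℕ) (p x f : ι → ℝ) : ℝ :=
  (k : ℝ) * (k - 1) * ∑ a, ∑ y, ∑ b, ∑ z, p a * p y * (p b * p z) * (max (f y - f a) 0 * (f b - f z)) *
    max (PR p x (k - 2) (k - x a - x b) - PR p x (k - 2) (k - x a - x z)) 0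

/-- `psi y = E ((Z - y)^+)^2` -/
noncomputable def psi {ι : Type} [Fintype ι] (p x : ι → ℝ) (y : ℝ) : ℝ :=
  ∑ z, p z * (max (x z - y) 0) ^ 2

/-- `RC k r`: the crossing point -/
def RC (k : ℕ) (r : ℝ) : Prop := 0 < r ∧ r < 1 ∧ r ^ k + (1 - r / k) ^ k = 1

/-- the key inequality -/
def KEY (k : ℕ) : Prop := ∀ (ι : Type) [Fintype ι] (p x : ι → ℝ) (r : ℝ), (∀ i, 0 ≤ p i) →
  ∑ i, p i = 1 → (∀ i, 0 ≤ x i) → mu p x = r → RC k r → 1 - r ^ k ≤ PR p x k k

end Pool.Agent.Q54.EM
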