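import Pool.Agent.Q54.EM.Def

/-!
# Project EM, group A and B: basic facts on `EE`, and the variance bound

Every `S_X : Prop` is a statement; the docstring gives its proof.
-/

set_option autoImplicit false

namespace Pool.Agent.Q54.EM

open Finset

/-- EEL (linearity and monotonicity). All by induction on `n` (generalising `f g`), from the recursive
definition. (1) sum; (2) constant multiple; (3) monotone when `p ≥ 0` (it is enough to compare `f` and
`g` on `[0, ∞)` since the sums S_j are `≥ 0`: in the induction use `f (s + x i)` with `x i ≥ 0`);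
(4) constants when `∑ p = 1`; (5) finite sums. -/
def S_EEL : Prop := ∀ (ι : Type) [Fintype ι] (p x : ι → ℝ) (n : ℕ),
  (∀ f g : ℝ → ℝ, EE p x n (fun s => f s + g s) = EE p x n f + EE p x n g) ∧
  (∀ f g : ℝ → ℝ, EE p x n (fun s => f s - g s) = EE p x n f - EE p x n g) ∧
  (∀ (c : ℝ) (f : ℝ → ℝ), EE p x n (fun s => c * f s) = c * EE p x n f) ∧
  ((∀ i, 0 ≤ p i) → (∀ i, 0 ≤ x i) → ∀ f g : ℝ → ℝ, (∀ s, 0 ≤ s → f s ≤ g s) →
    EE p x n f ≤ EE p x n g) ∧
  (∑ i, p i = 1 → ∀ c : ℝ, EE p x n (fun _ => c) = c) ∧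
  (∀ (J : Type) (A : Finset J) (f : J → ℝ → ℝ),
    EE p x n (fun s => ∑ j ∈ A, f j s) = ∑ j ∈ A, EE p x n (f j))

/-- TUP (tuple formula): induction on `n` with `Fin.consEquiv`/`Fin.insertNthEquiv`,
`Fintype.sum_equiv`, `Fin.prod_univ_succ`, `Fin.sum_univ_succ`, `Fintype.sum_prod_type`. -/
def S_TUP : Prop := ∀ (ι : Type) [Fintype ι] (p x : ι → ℝ) (n : ℕ) (f : ℝ → ℝ),
  EE p x n f = TE p n (fun v => f (∑ i, x (v i)))

/-- ONE: pick one coordinate. For a fixed coordinate `j` the tuple `v : Fin (n+1) → ι` is split by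
`Fin.insertNthEquiv` (or `Equiv.funSplitAt`) into `v j` and the remaining `n`-tuple (use `TUP` for the
remaining one); all `n + 1` coordinates give the same value. -/
def S_ONE : Prop := ∀ (ι : Type) [Fintype ι] (p x : ι → ℝ) (n : ℕ) (g : ι → ℝ → ℝ),
  TE p (n + 1) (fun v => ∑ i, g (v i) (∑ j, x (v j) - x (v i))) =
    (n + 1 : ℝ) * EE p x n (fun s => ∑ a, p a * g a s)

/-- TWO: pick two different coordinates (same proof as `ONE`, or apply `ONE` twice). -/
def S_TWO : Prop := ∀ (ι : Type) [Fintype ι] (p x : ι → ℝ) (n : ℕ) (g : ι → ι → ℝ → ℝ),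
  TE p (n + 2) (fun v => ∑ i, ∑ j ∈ univ.erase i, g (v i) (v j) (∑ m, x (v m) - x (v i) - x (v j))) =
    (n + 2 : ℝ) * (n + 1) * EE p x n (fun s => ∑ a, ∑ b, p a * p b * g a b s)

/-- SZB (size bias): `E[S_{n+1} f(S_{n+1})] = (n+1) E[X f(S_n + X)]`. From `TUP` and `ONE` with
`g a s = x a * f (s + x a)`. -/
def S_SZB : Prop := ∀ (ι : Type) [Fintype ι] (p x : ι → ℝ) (n : ℕ) (f : ℝ → ℝ),
  EE p x (n + 1) (fun s => s * f s) = (n + 1 : ℝ) * ∑ i, p i * x i * EE p x n (fun s => f (s + x i))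

/-- CND: `E[S_n ; S_n < y] ≤ n m P(S_n < y)` where `m` is the mean. Size bias gives
`E[S_{n} ; S_{n} < y] = n ∑ p x P(S_{n-1} < y - x)`, and `x ↦ P(S_{n-1} < y - x)` is antitone, so
Chebyshev's sum inequality (weights `p`; write it as the double sum
`∑ i j p i p j (x i - x j)(P_i - P_j) ≤ 0`) bounds it by `n m ∑ p P(S_{n-1} < y - x) = n m P(S_n < y)`.
-/
def S_CND : Prop := ∀ (ι : Type) [Fintype ι] (p x : ι → ℝ) (n : ℕ) (y : ℝ), Law p x →
  EE p x n (fun s => s * (if s < y then 1 else 0)) ≤ n * mu p x * PR p x n y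

/-- TIL (exponential tilting of the weights): with `Z = ∑ p e^{-t x}`,
`E_t f(S_n) = Z^{-n} E [f(S_n) e^{-t S_n}]`. Induction on `n` (or from `TUP`). -/
def S_TIL : Prop := ∀ (ι : Type) [Fintype ι] (p x : ι → ℝ) (n : ℕ) (f : ℝ → ℝ) (t : ℝ), Law p x →
  EE (fun i => p i * Real.exp (-t * x i) / ∑ j, p j * Real.exp (-t * x j)) x n f =
    EE p x n (fun s => f s * Real.exp (-t * s)) / (∑ j, p j * Real.exp (-t * x j)) ^ n

/-- DRV: differentiate under the (finite) expectation. Induction on `n` or from `TUP`. -/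
def S_DRV : Prop := ∀ (ι : Type) [Fintype ι] (p x : ι → ℝ) (n : ℕ) (f : ℝ → ℝ) (y t : ℝ),
  HasDerivAt (fun u => EE p x n (fun s => f s * Real.exp (u * (y - s))))
    (EE p x n (fun s => (y - s) * f s * Real.exp (t * (y - s)))) t

/-- VA1: the weighted sum of `N` over `S < k` vanishes. Here
`N v = ∑ i γ(v i, k - (S - x (v i)))`, `γ a r = ∑ z p z (f z - f a) 1[x z < r]` and `S < k` reads
`x (v i) < k - (S - x (v i))`. By `ONE` (with `n + 1 = k`) the left side is
`k E_{s ~ S_{k-1}} ∑ a z p a p z (f z - f a) 1[x z < k - s] 1[x a < k - s] = 0` by antisymmetry. -/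
def S_VA1 : Prop := ∀ (ι : Type) [Fintype ι] (p x f : ι → ℝ) (k : ℕ), 1 ≤ k →
  TE p k (fun v => if ∑ j, x (v j) < k then
    ∑ i, ∑ z, p z * (f z - f (v i)) * (if x z < k - (∑ j, x (v j) - x (v i)) then 1 else 0) else 0) = 0

/-- VA2: the same sum with the weight `k - S` is `-CC`. By `ONE` it is
`k E_s ∑ a z p a p z (f z - f a) 1[x z < k-s] 1[x a < k-s] (k - s - x a)`; symmetrising in `(a,z)` it is
`(k/2) E_s ∑ p a p z (f z - f a)(x z - x a) 1[max (x a) (x z) < k - s]`, and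
`E_s 1[max < k - s] = PR p x (k-1) (k - max)`. -/
def S_VA2 : Prop := ∀ (ι : Type) [Fintype ι] (p x f : ι → ℝ) (k : ℕ), 1 ≤ k →
  TE p k (fun v => if ∑ j, x (v j) < k then (k - ∑ j, x (v j)) *
    ∑ i, ∑ z, p z * (f z - f (v i)) * (if x z < k - (∑ j, x (v j) - x (v i)) then 1 else 0) else 0) =
    - CC k p x f

/-- VA3: the second moment of `N` on `S < k` is at most `PP + CR`. Write `N^2` as the diagonal plus
the off-diagonal terms.

Diagonal, by `ONE`: `k E_s ∑ a p a 1[x a < k-s] (∑ z p z (f z - f a) 1[x z < k-s])^2`. For fixed `s`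
let `B = {z | x z < k - s}`, `P = ∑_B p ≤ 1`, `M = ∑_B p f`, `Q = ∑_B p f^2`; the inner sum is
`∑_{a ∈ B} p a (M - P f a)^2 = P (P Q - M^2)`, and `P Q - M^2 ≥ 0` is half of
`∑_{a,z ∈ B} p a p z (f z - f a)^2`, so it is at most `(1/2) ∑_{a,z ∈ B} p a p z (f z - f a)^2`.

Off-diagonal, by `TWO` (`n + 2 = k`): with `r = k - s`, `s ~ S_{k-2}`,
`k (k-1) E_s ∑ a b z y p a p b p z p y (f z - f a)(f y - f b) [a+b<r] [z+b<r] [y+a<r]` (where `[a+b<r]`
is the indicator of `x a + x b < r`). Symmetrise in `(a, z)`: it is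
`(1/2) ∑ ... (f z - f a) [a+b<r] [z+b<r] (∑ y p y (f y - f b) ([y+a<r] - [y+z<r]))`, which is
`∑ over (a,z) with f z > f a` of the same thing without `1/2`. Then `x z < x a` (`f` is antitone in
`x`), so `[y+a<r] - [y+z<r] = -[y+z<r≤y+a]`, and when `a+b<r≤y+a` we have `x y > x b`, so
`f b - f y ≥ 0`. Dropping the indicators `[z+b<r]` and `[y+z<r]` the sum is at most
`∑ p a p z p b p y (f z - f a)^+ (f b - f y) [a+b<r≤a+y]`, which after `E_s` is the sum in `CR`
(rename `z ↔ y`; `P(S_{k-2} + x a + x b < k ≤ S_{k-2} + x a + x z)` is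
`max (PR (k-2) (k - x a - x b) - PR (k-2) (k - x a - x z)) 0`, as it is `0` unless `x b < x z`; note
that when `x b < x z` we have `f b - f z ≥ 0` and when `x z ≤ x b` the `max` is `0`). -/
def S_VA3 : Prop := ∀ (ι : Type) [Fintype ι] (p x f : ι → ℝ) (k : ℕ), 2 ≤ k →
  Law p x → (∀ i j, x i ≤ x j → f j ≤ f i) →
  TE p k (fun v => if ∑ j, x (v j) < k then (
    ∑ i, ∑ z, p z * (f z - f (v i)) * (if x z < k - (∑ j, x (v j) - x (v i)) then 1 else 0)) ^ 2 else 0)
    ≤ PP k p x f + CR k p x f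

/-- VB (the variance bound): Cauchy-Schwarz. With `D = k - S`, `h = GP/PR`, on `S < k`:
`CC^2 = (E[(D - h) N])^2 ≤ E[(D - h)^2] E[N^2]` (finite weighted sums, `VA1` removes `h`), and
`E[(D-h)^2 ; S < k] = G2 - GP^2/PR`. (`GP`, `G2`, `PR` in tuple form by `TUP`.) -/
def S_VB : Prop := ∀ (ι : Type) [Fintype ι] (p x f : ι → ℝ) (k : ℕ), 2 ≤ k → Law p x → 0 < PR p x k k →
  (∀ i j, x i ≤ x j → f j ≤ f i) →
  CC k p x f ^ 2 ≤ (G2 p x k k - GP p x k k ^ 2 / PR p x k k) * (PP k p x f + CR k p x f)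

end Pool.Agent.Q54.EM
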