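import Pool.Agent.Q54.EM.StmA

/-!
# Project EM, group C: static inequalities at a KKT point

Write `W = PR p x k k`, `w1 = PR p x (k-1) k`, `m = mu p x`, `R = k - S_{k-1}`.
Every `S_X : Prop` is a statement; the docstring gives its proof.
-/

set_option autoImplicit false

namespace Pool.Agent.Q54.EM

open Finset

/-- `E[(y - R)^+ ; R > 0]` with `R = k - S_{k-1}` -/
noncomputable def AA {ι : Type} [Fintype ι] (k : ℕ) (p x : ι → ℝ) (y : ℝ) : ℝ :=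
  EE p x (k - 1) (fun s => if s < k then max (y - (k - s)) 0 else 0)

/-- `∑ p i p j ((x i - x j)^+)^2 (1 - x i / l)` -/
noncomputable def DD {ι : Type} [Fintype ι] (p x : ι → ℝ) (l : ℝ) : ℝ :=
  ∑ i, ∑ j, p i * p j * ((max (x i - x j) 0) ^ 2 * (1 - x i / l))

/-- the quantity `B = t + (k-1)(m - t)` with `t = 1 - hh/k` -/
noncomputable def BB {ι : Type} [Fintype ι] (k : ℕ) (p x : ι → ℝ) : ℝ :=
  (1 - hh k p x / k) + (k - 1) * (mu p x - (1 - hh k p x / k))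

/-- POS: positivity and monotonicity of `PR`. (1) some `i` has `x i ≤ mu p x < 1` and the tuple with all
entries `i` has `n x i < k`; (2) `PR ≤ 1`, `PR ≥ 0`; (3) monotone in `y`; (4) antitone in `n`. -/
def S_POS : Prop := ∀ (ι : Type) [Fintype ι] (p x : ι → ℝ), Law p x →
  (∀ n k : ℕ, n ≤ k → 1 ≤ k → mu p x < 1 → 0 < PR p x n k) ∧
  (∀ (n : ℕ) (y : ℝ), 0 ≤ PR p x n y ∧ PR p x n y ≤ 1) ∧
  (∀ (n : ℕ) (y z : ℝ), y ≤ z → PR p x n y ≤ PR p x n z) ∧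
  (∀ (n : ℕ) (y : ℝ), PR p x (n + 1) y ≤ PR p x n y)

/-- LMB: `lam = 1 - m / l`: `W = ∑ p i P(S_{k-1} < k - x i) = w1 ∑ p i (1 - x i / l)`. -/
def S_LMB : Prop := ∀ (ι : Type) [Fintype ι] (p x : ι → ℝ) (k : ℕ) (l : ℝ), 1 ≤ k →
  Law p x → mu p x < 1 → KK k p x l → lam k p x = 1 - mu p x / l ∧ (∀ i, x i ≤ l)

/-- THT: `lam (1 - hh/k) = ∑ p x (1 - x/l)`: `E (k-S)^+ = k W - E[S ; S < k]` and by size bias
`E[S ; S < k] = k ∑ p x P(S_{k-1} < k - x) = k w1 ∑ p x (1 - x/l)`; divide by `k W = k w1 lam`. -/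
def S_THT : Prop := ∀ (ι : Type) [Fintype ι] (p x : ι → ℝ)
  (k : ℕ) (l : ℝ), 1 ≤ k → Law p x → mu p x < 1 → KK k p x l →
  lam k p x * (1 - hh k p x / k) = ∑ i, p i * (x i * (1 - x i / l))

/-- IDT: `k v = et lam l`. From `THT`: `∑ p x (1 - x/l) = m - (v + m^2)/l` and `m / l = 1 - lam`
(`LMB`), so `v / l = m lam - lam (1 - hh/k) = lam et / k`. -/
def S_IDT : Prop := ∀ (ι : Type) [Fintype ι] (p x : ι → ℝ) (k : ℕ) (l : ℝ), 1 ≤ k → Law p x → mu p x < 1 → KK k p x l →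
  k * va p x = et k p x * lam k p x * l

/-- CID: the covariance identity (no KKT). `G2 = k GP - E[S (k-S)^+] = k GP - k ∑ p x E(R - x)^+`;
`(R - x)^+ = 1[R>0] (R - x + (x - R)^+)` for `x ≥ 0`, so `E (R - x)^+ = e1 - x w1 + AA x` where
`e1 = GP p x (k-1) k`; hence `GP = e1 - m w1 + ∑ p AA` and
`∑ p x E(R-x)^+ = m GP - w1 v + (∑ p x AA - m ∑ p AA)`. -/
def S_CID : Prop := ∀ (ι : Type) [Fintype ι] (p x : ι → ℝ)
  (k : ℕ), 1 ≤ k → Law p x → mu p x < 1 →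
  PR p x k k * (VV k p x + hh k p x * et k p x) = k * PR p x (k - 1) k * va p x -
    k * (∑ i, p i * x i * AA k p x (x i) - mu p x * ∑ i, p i * AA k p x (x i))

/-- GEN: `lam (VV + hh et) ≤ k v` (no KKT): in `CID` the covariance is `≥ 0` since `AA` is monotone
(double sum); divide by `w1 > 0`. -/
def S_GEN : Prop := ∀ (ι : Type) [Fintype ι] (p x : ι → ℝ) (k : ℕ), 1 ≤ k → Law p x → mu p x < 1 →
  lam k p x * (VV k p x + hh k p x * et k p x) ≤ k * va p x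

/-- COV: under KKT the covariance is at least `w1 vw / l`: it is `∑_{x i < x j} p i p j (x j - x i)
(AA (x j) - AA (x i))` and, for `x i ≤ x j`, `(x j - R)^+ - (x i - R)^+ ≥ (x j - x i) 1[R ≤ x i]`, while
`P(0 < R ≤ x i) = w1 - P(S_{k-1} < k - x i) = w1 x i / l`. -/
def S_COV : Prop := ∀ (ι : Type) [Fintype ι] (p x : ι → ℝ) (k : ℕ) (l : ℝ), 1 ≤ k → Law p x → mu p x < 1 → KK k p x l →
  lam k p x * (VV k p x + hh k p x * et k p x) + k * vw p x / l ≤ k * va p x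

/-- LH: `k (1 - m) ≤ lam hh` (no KKT): `E (R - X)^+ ≥ E[R - X ; R > 0] = GP p x (k-1) k - m w1` and
`GP p x (k-1) k = k w1 - E[S_{k-1} ; S_{k-1} < k] ≥ (k - (k-1) m) w1` by `CND`; divide by `w1`. -/
def S_LH : Prop := ∀ (ι : Type) [Fintype ι] (p x : ι → ℝ) (k : ℕ), 1 ≤ k → Law p x → mu p x < 1 →
  k * (1 - mu p x) ≤ lam k p x * hh k p x

/-- E3: `k (1 - m) + m (1 - w1) ≤ GP p x k k` (no KKT): `(k-S)^+ = (k - S) + (S - k)^+`, `E S = k m`,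
and `E (S_k - k)^+ ≥ E[(S_{k-1} - k + X) ; S_{k-1} ≥ k] ≥ m P(S_{k-1} ≥ k)`. -/
def S_E3 : Prop := ∀ (ι : Type) [Fintype ι] (p x : ι → ℝ) (k : ℕ), 1 ≤ k → Law p x →
  k * (1 - mu p x) + mu p x * (1 - PR p x (k - 1) k) ≤ GP p x k k

/-- VX: the variance bound with `f = -x` at a KKT point. `CC = PP = k w1 DD` (since
`PR (k-1) (k - max) = w1 (1 - max/l)`, and the two orders of the pair give the same), and
`CR ≤ k^2 W v / l`: `∑ y p y (x a - x y)^+ ≤ x a ∑ y p y (1 - x y / l) = lam x a` (for `x y ≤ x a` use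
`x a ≤ l`, otherwise `x y ≤ l`), then by size bias `∑ a p a x a E g(S_{k-2} + x a) =
E[S_{k-1} g(S_{k-1})]/(k-1)` and on `S_{k-1} + x b < k` we have `S_{k-1} ≤ k`, so
`CR ≤ k lam ∑_{x b < x z} p b p z (x z - x b) k P(S_{k-1}+x b < k ≤ S_{k-1} + x z)
= k^2 lam w1 ∑_{x b < x z} p b p z (x z - x b)^2 / l = k^2 W v / l`.
Then `VB` divided by `W^2`. -/
def S_VX : Prop := ∀ (ι : Type) [Fintype ι] (p x : ι → ℝ) (k : ℕ) (l : ℝ), 2 ≤ k → Law p x → mu p x < 1 →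
  KK k p x l →
  (k / lam k p x * DD p x l) ^ 2 ≤ VV k p x * (k / lam k p x * DD p x l + k ^ 2 * va p x / l)

/-- TX: a triple inequality. All terms are sums over ordered triples `(i, j, m)` with weight
`p i p j p m`; symmetrise. For `a ≤ b ≤ c ≤ l` the inequality
`(b-a)^2 c (1-c/l) + (c-a)^2 b (1-b/l) + (c-b)^2 a (1-a/l) ≤ (b-a)^2 c (1-b/l) + (c-a)^2 b (1-c/l) +
(c-b)^2 a (1-c/l) + (b-a)^2 a + (c-a)^2 a + (c-b)^2 b` holds (multiply by `l`, it is linear in `l` with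
a nonnegative coefficient, so take `l = c`, and put `b = a + u`, `c = a + u + w`). -/
def S_TX : Prop := ∀ (ι : Type) [Fintype ι] (p x : ι → ℝ) (l : ℝ), 0 < l → Law p x → (∀ i, x i ≤ l) →
  va p x * (∑ i, p i * (x i * (1 - x i / l))) ≤ mu p x * DD p x l + vw p x

/-- XX: inequality (X). Put `q = 1 - lam`, `q l = m`, `kv = et lam l` (`IDT`), `et ≥ q hh > 0` (`LH`),
`w = vw / v ≥ 0`. `COV` gives `VV ≤ et (l - hh - w)`. With `C = k DD / lam`, `TX` gives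
`k v (1 - hh/k) ≤ m C + (k/lam) v w`, i.e. `C ≥ et X` where `X = (lam (1 - hh/k) - w)/q`. If `X ≤ 0`
then `l - hh ≥ w ≥ lam (1 - hh/k)`. If `X > 0`, `VX` gives `VV ≥ C^2/(C + k^2 v/l)`, with
`k^2 v/l = k et lam`, which is increasing in `C`, so `VV ≥ et X^2/(X + k lam)`; hence
`l - hh ≥ lam (1-hh/k) - q X + X^2/(X + k lam)` and with `s = X + k lam`, `d = k lam`:
`X^2/(X+d) - q X = lam s + d^2/s - (2-q) d ≥ 2 d √lam - (1 + lam) d = - d (1 - √lam)^2`. -/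
def S_XX : Prop := ∀ (ι : Type) [Fintype ι] (p x : ι → ℝ) (k : ℕ) (l : ℝ), 2 ≤ k → Law p x → 0 < mu p x →
  mu p x < 1 → KK k p x l → 0 < va p x →
  lam k p x * ((1 - hh k p x / k) - k * (1 - √(lam k p x)) ^ 2) ≤ l - hh k p x

/-- VP1: the diagonal term for `f = psi ∘ x`. Use `((z-s)^+)^2 = z^2 - z s - min(z,s)(z-s)`, so
`psi s = E Z^2 - m s - E min(Z,s)(Z-s)`. For a fixed value `r` of `R` let `B = {a | x a < r}`; then
`(1/2)∑_{a,z∈B} p a p z (f z - f a)((f + m x) z - (f + m x) a) = - P ∑_{a∈B} p a (f a - f̄) E M(Z, x a)`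
where `M(z,s) = min(z,s)(z-s)`, `P = p(B)`, `f̄ P = ∑_B p f`. The part `Z ∈ B` is
`-(P/2)∑_{a,z∈B} p a p z (f a - f z) M(x z, x a) ≤ 0` (`f` antitone). The part `Z ∉ B` is
`∑_{a∈B} p a (∑_{b∈B} p b (f b - f a)) ∑_{z∉B} p z x a (x z - x a)` and
`∑_{b∈B} p b (f b - f a) ≤ ∑ b p b f b = v`. Taking `k E_R` gives `PP - m CC ≤ k v ∑ a z p a p z x a
(x z - x a) P(x a < R ≤ x z)`, and at a KKT point `P(x a < R ≤ x z) = w1 (x z - x a)/l`. -/
def S_VP1 : Prop := ∀ (ι : Type) [Fintype ι] (p x : ι → ℝ) (k : ℕ) (l : ℝ),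
  1 ≤ k → Law p x → mu p x < 1 → KK k p x l →
  PP k p x (fun i => psi p x (x i)) ≤ mu p x * CC k p x (fun i => psi p x (x i)) +
    k * va p x * PR p x (k - 1) k * vw p x / l

/-- VP2: the off-diagonal term for `f = psi ∘ x`: `∑ y p y (f y - f a)^+ ≤ ∑ y p y f y = v`
(`f ≥ 0`, `E psi(X) = v`), then summing over `a` turns `S_{k-2} + x a` into `S_{k-1}`, and at a KKT
point `P(S_{k-1} + x b < k ≤ S_{k-1} + x z) = w1 (x z - x b)/l` for `x b < x z`; finally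
`∑_{x b<x z} p b p z (f b - f z)(x z - x b) = - Cov(f, x) = m v - vw` (from
`psi s = E Z^2 - m s - E min(Z,s)(Z-s)`). -/
def S_VP2 : Prop := ∀ (ι : Type) [Fintype ι] (p x : ι → ℝ) (k : ℕ) (l : ℝ),
  2 ≤ k → Law p x → mu p x < 1 → KK k p x l →
  CR k p x (fun i => psi p x (x i)) ≤
    k * (k - 1) * va p x * PR p x (k - 1) k * (mu p x * va p x - vw p x) / l

/-- VP3: the covariance for `f = psi ∘ x`, a triple inequality. `CC = k w1 ∑_{x i > x j} p i p j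
(x i - x j)(f j - f i)(1 - x i/l)` with `f j - f i = ∑ z p z (((z - x j)^+)^2 - ((z - x i)^+)^2)`. For a
triple `a ≤ b ≤ c ≤ l` the symmetrised left side is
`(b-a)((c-a)^2 - (c-b)^2)(1-b/l) + (c-a)(b-a)^2 (1-c/l)` and the symmetrised right side
`(b-a)^2 (c-a)(1-c/l) + (c-a)^2 (b-a)(1-b/l) - (c-b)^2 (b-a)(1-a/l)`; the difference is
`(b-a)^2 (c-b)^2 / l ≥ 0`. (Here `lam = ∑ p (1 - x/l)`.) -/
def S_VP3 : Prop := ∀ (ι : Type) [Fintype ι] (p x : ι → ℝ) (k : ℕ) (l : ℝ),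
  1 ≤ k → Law p x → mu p x < 1 → KK k p x l →
  k * PR p x (k - 1) k * (va p x * (∑ i, p i * (x i * (1 - x i / l))) - lam k p x * vw p x) ≤
    CC k p x (fun i => psi p x (x i))

/-- PW: inequality (P) for `w = vw / v ≤ t = 1 - hh/k`: `k v (t - w)^2 ≤ VV (m - w) BB`.
With `C = CC / W ≥ k v (t - w) ≥ 0` (`VP3`, `THT`), `PP / W ≤ m C + et v w` (`VP1`; `k v/(lam l) = et`
by `IDT`) and `CR / W ≤ (k-1) et v (m - w)` (`VP2`), `VB` gives
`C^2 ≤ VV (m C + et v w + (k-1) et v (m-w))`; since `C^2/(m C + d)` is increasing in `C ≥ 0` replace `C`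
by `k v (t - w)`; `m k (t-w) + et w + (k-1) et (m-w) = k (m - w) BB` because `et = k (m - t)`.
(`f` is antitone: `psi` is antitone.) -/
def S_PW : Prop := ∀ (ι : Type) [Fintype ι] (p x : ι → ℝ) (k : ℕ) (l : ℝ), 2 ≤ k → Law p x → 0 < mu p x →
  mu p x < 1 → KK k p x l → 0 < va p x → vw p x ≤ (1 - hh k p x / k) * va p x →
  k * va p x * ((1 - hh k p x / k) - vw p x / va p x) ^ 2 ≤
    VV k p x * (mu p x - vw p x / va p x) * BB k p x

/-- P0: inequality (P0). With `w = vw / v`, `t = 1 - hh/k`, `m ≥ t` (`et ≥ 0`), `COV` and `IDT` give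
`VV ≤ et (l - hh - w)`, `kv = et lam l`. If `w ≤ t`, `PW` gives
`l - hh - w ≥ lam l (t - w)^2/((m - w) BB)`, and `(t-w)^2/(m-w) ≥ t^2/m - w` (put `A = m - w`,
`d = m - t`: `(A-d)^2/A = A - 2d + d^2/A`), so by `lam l ≤ BB`,
`l - hh ≥ w + (lam l/BB)(t^2/m - w) ≥ lam l t^2/(m BB)`. If `w > t` then
`l - hh ≥ w > t ≥ t^2/m ≥ lam l t^2/(m BB)`. (`BB > 0`: `BB ≥ t + ...`, or from `lam l ≤ BB`. If
`m = w` then `t = w` and the claim follows from `l - hh ≥ w`.) -/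
def S_P0 : Prop := ∀ (ι : Type) [Fintype ι] (p x : ι → ℝ) (k : ℕ) (l : ℝ), 2 ≤ k → Law p x → 0 < mu p x →
  mu p x < 1 → KK k p x l → 0 < va p x → lam k p x * l ≤ BB k p x →
  lam k p x * l * (1 - hh k p x / k) ^ 2 ≤ mu p x * (l - hh k p x) * BB k p x

/-- HL: `hh ≤ l` and `0 < hh ≤ k`, `0 ≤ VV`, `0 < et`. `COV` + `IDT`: `lam (VV + hh et) ≤ et lam l` with
`VV ≥ 0` (Cauchy-Schwarz) and `et ≥ (1 - lam) hh > 0` (`LH`, `LMB` with `m > 0`). `GP > 0`: some `i` has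
`x i ≤ m < 1` so `S_k = k x i < k` has positive probability. -/
def S_HL : Prop := ∀ (ι : Type) [Fintype ι] (p x : ι → ℝ) (k : ℕ) (l : ℝ), 1 ≤ k → Law p x → 0 < mu p x →
  mu p x < 1 → KK k p x l →
  hh k p x ≤ l ∧ 0 < hh k p x ∧ hh k p x ≤ k ∧ 0 ≤ VV k p x ∧ 0 < et k p x

end Pool.Agent.Q54.EM
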