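import Pool.Agent.Q54.EM.StmC

/-!
# Project EM, group D: the tilting flow

`Flow` is an abstract structure (pure calculus). `FLW` realises it by exponential tilting.
Write `f(q) = -log(1-q)/q`. Every `S_X : Prop` is a statement; the docstring gives its proof.
-/

set_option autoImplicit false

namespace Pool.Agent.Q54.EM

open Finset Filter Topology

/-- the flow; every function of time `t ≥ 0`; `lm = 1 - q` -/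
structure Flow (k q0 e l : ℝ) (h y g K lm o R3 H F T O : ℝ → ℝ) : Prop where
  k0 : 0 < k
  q00 : 0 < q0
  q01 : q0 < 1
  e0 : 0 ≤ e
  l0 : 0 < l
  hpos : ∀ t, 0 ≤ t → 0 < h t
  hH : ∀ t, 0 ≤ t → h t * H t = l
  dT : ∀ t, 0 ≤ t → HasDerivAt T (h t) t
  T0 : T 0 = 0
  dF : ∀ t, 0 ≤ t → HasDerivAt F (- (h t * y t)) t
  Fl : Tendsto F atTop (𝓝 0)
  dy : ∀ t, 0 ≤ t → HasDerivAt y (h t * (- K t + (1 - y t) * g t)) t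
  dlm : ∀ t, 0 ≤ t → HasDerivAt lm (h t * (lm t * (1 - lm t + o t))) t
  dK : ∀ t, 0 ≤ t → HasDerivAt K (h t * (- R3 t - 2 * K t * g t)) t
  dH : ∀ t, 0 ≤ t → HasDerivAt H (- (h t * (g t * H t))) t
  dO : ∀ t, 0 ≤ t → HasDerivAt O (h t * (lm t * y t * o t)) t
  O0 : O 0 = 0
  o0 : ∀ t, 0 ≤ t → 0 ≤ o t
  g0 : ∀ t, 0 ≤ t → 0 ≤ g t
  lm0 : ∀ t, 0 ≤ t → 0 < lm t
  lm1 : ∀ t, 0 ≤ t → lm t < 1
  y1 : ∀ t, 0 ≤ t → y t ≤ 1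
  Kg : ∀ t, 0 ≤ t → lm t * (g t + y t) ≤ K t
  qy : ∀ t, 0 ≤ t → 1 - lm t + o t ≤ y t
  Rup : ∀ t, 0 ≤ t → R3 t ≤ K t * ((1 - q0) * H t + (1 / k) * (1 - y t - K t / H t))
  Rlo : ∀ t, 0 ≤ t → - R3 t ≤ K t * (q0 * H t)
  il : lm 0 = 1 - q0
  iH : H 0 = 1 + e
  iK : K 0 = y 0 * ((1 - q0) * (1 + e))

/-- `f(q) = -log(1-q)/q` -/
noncomputable def ff (q : ℝ) : ℝ := - Real.log (1 - q) / q

/-- FF: facts on `f` for `0 < q < 1`: `f' = (1/(1-q) - f)/q`; `1 ≤ f`; `(1-q) f ≤ 1 - q/2`. -/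
def S_FF : Prop := ∀ q : ℝ, 0 < q → q < 1 →
  HasDerivAt ff ((1 / (1 - q) - ff q) / q) q ∧ 1 ≤ ff q ∧ (1 - q) * ff q ≤ 1 - q / 2

/-- RMO: the function `R = F - y f(q)`, `q = 1 - lm`, has derivative at least
`h ((y - q)(K - lm y) + y o / 2) ≥ 0`. Indeed `q' = - h lm (q + o)` and
`R' = h [f (K - lm y - (1-y) g) + y o (1 - lm f)/q]`, and `g ≤ (K - lm y)/lm` (`Kg`), `1 - y ≥ 0`, so
`K - lm y - (1-y) g ≥ (K - lm y)(y - q)/lm`, `f/lm ≥ 1`, `(1 - lm f)/q ≥ 1/2`, `y ≥ q`, `K ≥ lm y`. -/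
def S_RMO : Prop := ∀ (k q0 e l : ℝ) (h y g K lm o R3 H F T O : ℝ → ℝ),
  Flow k q0 e l h y g K lm o R3 H F T O → ∀ t, 0 ≤ t → ∃ d : ℝ,
    HasDerivAt (fun s => F s - y s * ff (1 - lm s)) d t ∧
    h t * ((y t - (1 - lm t)) * (K t - lm t * y t) + y t * o t / 2) ≤ d ∧ 0 ≤ d

/-- THA (Theorem A): `F 0 ≤ y 0 f(q0)`, more generally `F t - y t f(q t) ≤ 0` for every `t ≥ 0`: the
function `R` of `RMO` is monotone on `[0, ∞)` and `R ≤ F → 0` (as `y f ≥ 0`). -/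
def S_THA : Prop := ∀ (k q0 e l : ℝ) (h y g K lm o R3 H F T O : ℝ → ℝ),
  Flow k q0 e l h y g K lm o R3 H F T O → ∀ t, 0 ≤ t → F t - y t * ff (1 - lm t) ≤ 0

/-- FL1: simple bounds along the flow. `H` is antitone, `lm` monotone, `y` antitone
(`-K + (1-y) g ≤ -lm y - g (y - q) ≤ 0`), `O ≥ 0`; `T` is monotone and reaches every value `c ≥ 0`
(`h ≥ l/(1+e)`). And `K (1 - q0 (1+e) T)` is antitone as long as `q0 (1+e) T ≤ 1` (`Rlo`, `H ≤ 1 + e`),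
so `K ≤ nu y 0` when `(1-q0)(1+e) ≤ nu (1 - q0 (1+e) c)` and `T ≤ c`, whence
`y ≥ y 0 (1 - nu T)` for `T ≤ c` (`y' ≥ - h K`). -/
def S_FL1 : Prop := ∀ (k q0 e l : ℝ) (h y g K lm o R3 H F T O : ℝ → ℝ),
  Flow k q0 e l h y g K lm o R3 H F T O →
  (∀ t, 0 ≤ t → H t ≤ 1 + e ∧ 0 < H t ∧ 1 - q0 ≤ lm t ∧ y t ≤ y 0 ∧ 0 ≤ O t ∧ 0 ≤ T t ∧ 0 ≤ K t) ∧
  (∀ s t, 0 ≤ s → s ≤ t → T s ≤ T t) ∧
  (∀ c, 0 ≤ c → ∃ t, 0 ≤ t ∧ T t = c) ∧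
  (∀ c nu, 0 < c → q0 * (1 + e) * c < 1 → (1 - q0) * (1 + e) ≤ nu * (1 - q0 * (1 + e) * c) →
    ∀ t, 0 ≤ t → T t ≤ c → K t ≤ nu * y 0 ∧ y 0 * (1 - nu * T t) ≤ y t)

/-- FL2: lower bound for `E1 = K - lm y`. Let `E0 = (1-q0) y0 e` (`= E1 0`), `y0 = y 0`. While
`E1 ≤ E0` (and `T ≤ c`) one has `E1' ≥ h (- y0 s1 - lm y o)` with
`s1 = (1-q0)(e(1+e)(3-q0) + q0)`. Proof: `1 - y - K/H ≤ 1 - y (1 + (1-q0)/(1+e)) ≤ 0` by the lower bound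
of `y` in `FL1` and the hypothesis, so `R3 ≤ K (1-q0)(1+e)`, and
`E1' = h (-R3 - 2 K g - lm (q + o) y + lm K - lm (1-y) g)`
`≥ h (-K((1-q0)(1+e) - lm) - 2 K g - lm q y - lm y o - lm (1-y) g)`.
With `K = lm y + E1 ≤ (lm + (1-q0) e) y0`, `g ≤ E1/lm`:
(i) `K((1-q0)(1+e) - lm)^+ ≤ y0 (1-q0)^2 e (1+e)`; (ii) `2 K g + lm (1-y) g ≤ 2 y E1 + 2 E1^2/lm +
(1-y) E1 ≤ y0 (1-q0) e · 2 (1+e)`; (iii) `lm (1 - lm) y ≤ (1-q0) q0 y0` as `lm ≥ 1-q0 ≥ 1/2`.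
Hence the function `D = E1 - E0 + y0 s1 T + O` has `D' ≥ 0` whenever `D < 0` (then `E1 < E0`), and
`D 0 = 0`, so `D ≥ 0` while `T ≤ c`. Finally `y0 s1 ≤ E0/c`. -/
def S_FL2 : Prop := ∀ (k q0 e l : ℝ) (h y g K lm o R3 H F T O : ℝ → ℝ),
  Flow k q0 e l h y g K lm o R3 H F T O → ∀ c nu, 0 < c → q0 ≤ 1 / 2 → q0 * (1 + e) * c < 1 →
  (1 - q0) * (1 + e) ≤ nu * (1 - q0 * (1 + e) * c) →
  c * (e * (1 + e) * (3 - q0) + q0) ≤ e →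
  1 ≤ y 0 * (1 - nu * c) * (1 + (1 - q0) / (1 + e)) →
  ∀ t, 0 ≤ t → T t ≤ c → (1 - q0) * y 0 * e * (1 - T t / c) - O t ≤ K t - lm t * y t

/-- FL3 (persistence): the function `Q = R - P(T) + (T - 1/2) O` with `R = F - y f(1 - lm)`,
`E0 = (1-q0) y0 e`, `P(s) = ∫_0^s (y0 (1 - nu u) - q0) E0 (1 - u/c) du` (a polynomial:
`E0 ((y0-q0)(s - s^2/(2c)) - nu y0 (s^2/2 - s^3/(3c)))`) has `Q' ≥ 0` while `T ≤ c`: with
`A = y0 (1 - nu T) - q0 ∈ [0,1]`, `y - q ≥ A`, `E1 = K - lm y ≥ 0`, `E1 ≥ E0 (1 - T/c) - O` (`FL2`), so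
by `RMO` `Q' ≥ h (A (E0 (1 - T/c) - O) + y o/2 - A E0 (1 - T/c) + O + (T - 1/2) lm y o) ≥ 0`. At the time
with `T = c ≤ 1/2`: `R ≥ R(0) + P(c)`, and `R ≤ 0` by `THA`. `P(c) = (E0 c/2)(y0 (1 - nu c/3) - q0)`. -/
def S_FL3 : Prop := ∀ (k q0 e l : ℝ) (h y g K lm o R3 H F T O : ℝ → ℝ),
  Flow k q0 e l h y g K lm o R3 H F T O → ∀ c nu, 0 < c → c ≤ 1 / 2 → q0 ≤ 1 / 2 →
  q0 * (1 + e) * c < 1 → (1 - q0) * (1 + e) ≤ nu * (1 - q0 * (1 + e) * c) →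
  c * (e * (1 + e) * (3 - q0) + q0) ≤ e →
  1 ≤ y 0 * (1 - nu * c) * (1 + (1 - q0) / (1 + e)) → q0 ≤ y 0 * (1 - nu * c) →
  F 0 ≤ y 0 * ff q0 - (1 - q0) * y 0 * e * c / 2 * (y 0 * (1 - nu * c / 3) - q0)

/-- the tilted weights -/
noncomputable def pt {ι : Type} [Fintype ι] (p x : ι → ℝ) (t : ℝ) : ι → ℝ :=
  fun i => p i * Real.exp (-t * x i) / ∑ j, p j * Real.exp (-t * x j)

/-- `E[(k - S_n)^j e^{t (k - S_n)} ; S_n < k]` -/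
noncomputable def UU {ι : Type} [Fintype ι] (k : ℕ) (p x : ι → ℝ) (n j : ℕ) (t : ℝ) : ℝ :=
  EE p x n (fun s => (k - s) ^ j * (if s < k then 1 else 0) * Real.exp (t * (k - s)))

/-- TLT: the tilted law. `Law (pt p x t) x`, and the quantities of the tilted law in terms of `UU`
(from `TIL`; `e^{-ts} = e^{-tk} e^{t(k-s)}`): with `Z = ∑ p e^{-tx}`,
`PR (pt) x n k = e^{-tk} UU n 0 / Z^n`, `GP = e^{-tk} UU n 1 / Z^n`, `G2 = e^{-tk} UU n 2/Z^n`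
(as `max (k-s) 0 = (k-s) 1[s<k]`); `UU > 0` for `n ≤ k`, `j = 0` when `mu < 1` (`POS`). -/
def S_TLT : Prop := ∀ (ι : Type) [Fintype ι] (p x : ι → ℝ) (k : ℕ), 1 ≤ k →
  Law p x → mu p x < 1 → ∀ t : ℝ, Law (pt p x t) x ∧
  (∀ n, PR (pt p x t) x n k = Real.exp (-t * k) * UU k p x n 0 t / (∑ j, p j * Real.exp (-t * x j)) ^ n) ∧
  (∀ n, GP (pt p x t) x n k = Real.exp (-t * k) * UU k p x n 1 t / (∑ j, p j * Real.exp (-t * x j)) ^ n) ∧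
  (∀ n, G2 (pt p x t) x n k = Real.exp (-t * k) * UU k p x n 2 t / (∑ j, p j * Real.exp (-t * x j)) ^ n) ∧
  (∀ n, n ≤ k → 0 < UU k p x n 0 t) ∧
  (∀ n j, HasDerivAt (UU k p x n j) (UU k p x n (j + 1) t) t)

/-- TMO: derivatives of the moments of the tilted law: `m' = -v`, `v' = -k3`, `(log Z)' = -m`; `m` is
antitone in `t`. -/
def S_TMO : Prop := ∀ (ι : Type) [Fintype ι] (p x : ι → ℝ), Law p x →
  (∀ t, HasDerivAt (fun s => mu (pt p x s) x) (- va (pt p x t) x) t) ∧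
  (∀ t, HasDerivAt (fun s => va (pt p x s) x) (- k3 (pt p x t) x) t) ∧
  (∀ t, HasDerivAt (fun s => Real.log (∑ j, p j * Real.exp (-s * x j))) (- mu (pt p x t) x) t) ∧
  (∀ t, 0 ≤ t → mu (pt p x t) x ≤ mu p x) ∧ pt p x 0 = p

/-- K3B: bounds for the third central moment of a law on `[0, l]`: `k3 ≥ - m v` (`X - m ≥ -m`), and with
`Y = l - X ≥ 0`, `E Y E Y^3 ≥ (E Y^2)^2` gives `(l-m) k3 ≤ (l-m)^2 v - v^2`. -/
def S_K3B : Prop := ∀ (ι : Type) [Fintype ι] (p x : ι → ℝ) (l : ℝ), Law p x → (∀ i, x i ≤ l) →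
  - (mu p x * va p x) ≤ k3 p x ∧ (l - mu p x) * k3 p x ≤ (l - mu p x) ^ 2 * va p x - va p x ^ 2 ∧
  0 ≤ va p x

/-- TLI: the tilted probability `P_t(S_k < k)` tends to `1` as `t → ∞` when `mu < 1`: some `i` has
`x i < 1`; let `a = min x < 1`. `1 - P_t(S_k < k) = E[e^{-tS}; S ≥ k]/Z^k ≤ e^{-tk}/(p_a e^{-ta})^k =
p_a^{-k} e^{-tk(1-a)} → 0`. -/
def S_TLI : Prop := ∀ (ι : Type) [Fintype ι] (p x : ι → ℝ) (k : ℕ), 1 ≤ k →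
  Law p x → mu p x < 1 → Tendsto (fun t => PR (pt p x t) x k k) atTop (𝓝 1)

/-- TLQ: the tilted law has `P_t(S_k < k) < P_t(S_{k-1} < k)` if this holds at `t = 0` (a tuple with
`S_{k-1} < k ≤ S_k` has positive probability under every tilt; in terms of `TIL`, the function
`1[S_{k-1}<k] - 1[S_k<k] ≥ 0` has positive expectation at `t = 0`, hence for all `t`). -/
def S_TLQ : Prop := ∀ (ι : Type) [Fintype ι] (p x : ι → ℝ) (k : ℕ), 1 ≤ k →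
  Law p x → PR p x k k < PR p x (k - 1) k → ∀ t, PR (pt p x t) x k k < PR (pt p x t) x (k - 1) k

/-- FLW (realisation). With `Z = ∑ p e^{-tx}`, `U_n^j = UU k p x n j`, `m, v, κ` the moments of
`pt p x t`: `h = U_k^1/U_k^0` (`= hh k (pt) x`), `V = U_k^2/U_k^0 - h^2`,
`lm = U_k^0/(Z U_{k-1}^0)` (`= lam k (pt) x`), `y = 1 - k(1-m)/h`, `g = V/h^2`, `K = k v/h^2`,
`R3 = k κ/h^3`, `H = l/h`, `o = (lm h - U_{k-1}^1/U_{k-1}^0 + m)/h`, `F = - log (PR (pt) x k k)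
= -(log U_k^0 - t k - k log Z)`, `T = log U_k^0(t) - log U_k^0(0)`, `O = ∫_0^t h lm y o`.
Derivatives: `h' = V`, `lm'/lm = h + m - U_{k-1}^1/U_{k-1}^0 = h(1 - lm + o)`, `y' = -k v/h + (1-y) V/h`,
etc. Inequalities, at each time for the tilted law: `Kg` is `GEN`; `o ≥ 0` is
`E(R-X)^+ ≥ E[R - X ; R > 0]`; `qy`: `h(1-lm+o) ≤ h - k(1-m)` iff
`E[k - S_{k-1} | S_{k-1}<k] ≥ k - (k-1) m` (`CND`); `Rup`, `Rlo` from `K3B` with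
`1/h = H/l`, `q0 = m0/l ≤ 1/l`, `m ≤ m0`, `m = 1 - h(1-y)/k`, `v/(h l) = K/(k H)`:
`κ/(h v) ≤ (l-m)/h - v/(h(l-m)) ≤ H - 1/h + (1-y)/k - K/(kH)`; initial values: `lam = 1 - m0/l`
(`LMB`), `K 0 = y 0 lm (1+e)` from `IDT`. -/
def S_FLW : Prop := ∀ (ι : Type) [Fintype ι] (p x : ι → ℝ) (k : ℕ) (l : ℝ), 2 ≤ k → Law p x → 0 < mu p x →
  mu p x < 1 → KK k p x l → 0 < va p x →
  ∃ h y g K lm o R3 H F T O : ℝ → ℝ,
    Flow k (1 - lam k p x) (l / hh k p x - 1) l h y g K lm o R3 H F T O ∧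
    F 0 = - Real.log (PR p x k k) ∧ y 0 = 1 - k * (1 - mu p x) / hh k p x

/-- TAF (Theorem A for a law). From `FLW`, `THA` at `t = 0`. -/
def S_TAF : Prop := ∀ (ι : Type) [Fintype ι] (p x : ι → ℝ) (k : ℕ) (l : ℝ), 2 ≤ k → Law p x → 0 < mu p x →
  mu p x < 1 → KK k p x l → 0 < va p x →
  - Real.log (PR p x k k) ≤ (1 - k * (1 - mu p x) / hh k p x) * ff (1 - lam k p x)

/-- PLF (persistence for a law). From `FLW`, `FL3`. Here `q = 1 - lam`, `e = l/hh - 1`. -/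
def S_PLF : Prop := ∀ (ι : Type) [Fintype ι] (p x : ι → ℝ) (k : ℕ) (l : ℝ), 2 ≤ k → Law p x → 0 < mu p x →
  mu p x < 1 → KK k p x l → 0 < va p x → ∀ q e y0 c nu : ℝ, q = 1 - lam k p x → e = l / hh k p x - 1 →
  y0 = 1 - k * (1 - mu p x) / hh k p x → 0 < c → c ≤ 1 / 2 → q ≤ 1 / 2 →
  q * (1 + e) * c < 1 → (1 - q) * (1 + e) ≤ nu * (1 - q * (1 + e) * c) →
  c * (e * (1 + e) * (3 - q) + q) ≤ e →
  1 ≤ y0 * (1 - nu * c) * (1 + (1 - q) / (1 + e)) → q ≤ y0 * (1 - nu * c) →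
  - Real.log (PR p x k k) ≤ y0 * ff q - (1 - q) * y0 * e * c / 2 * (y0 * (1 - nu * c / 3) - q)

end Pool.Agent.Q54.EM
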