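import Pool.Agent.Q54.EM.StmN

/-!
# Project EM, group G: existence of an optimal law and its properties

If the key inequality fails for `k` there is a minimiser of `P(S_k < k)` on a finite index set with two
special atoms `o` (value `0`) and `t` (value `k`); it satisfies the KKT equality on its support and the
two bounds (B1), (B2).
-/

set_option autoImplicit false

namespace Pool.Agent.Q54.EM

open Finset

/-- feasible points -/
structure Feas {ι : Type} [Fintype ι] (k : ℕ) (r : ℝ) (o t : ι) (p x : ι → ℝ) : Prop where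
  p0 : ∀ i, 0 ≤ p i
  p1 : ∑ i, p i = 1
  x0 : ∀ i, 0 ≤ x i
  xk : ∀ i, x i ≤ k
  xo : x o = 0
  xt : x t = k
  m : mu p x = r

/-- minimisers -/
def Mini {ι : Type} [Fintype ι] (k : ℕ) (r : ℝ) (o t : ι) (p x : ι → ℝ) : Prop :=
  Feas k r o t p x ∧ ∀ p' x' : ι → ℝ, Feas k r o t p' x' → PR p x k k ≤ PR p' x' k k

/-- the properties of an optimal law -/
structure Opt {ι : Type} [Fintype ι] (k : ℕ) (p x : ι → ℝ) (r l : ℝ) : Prop where
  law : Law p x
  m : mu p x = r
  kk : KK k p x l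
  xk : ∀ i, x i ≤ k
  z : ∃ i, x i = 0
  b1 : ∑ i, (if 0 < x i then p i else 0) ≤ r
  b2 : k * ∑ i, (if (k : ℝ) / 2 < x i then p i else 0) ≤ r
  lt : PR p x k k < 1 - r ^ k

/-- there is no optimal law violating the bound -/
def NoOpt (k : ℕ) : Prop := ∀ (ι : Type) [Fintype ι] (p x : ι → ℝ) (r l : ℝ), RC k r → ¬ Opt k p x r l

/-- MIN: a minimiser exists. The set of feasible `(p, x)` is compact (closed and bounded in a finite
dimensional space, `IsCompact`), and `(p, x) ↦ PR p x k k = ∑ v, (∏ p (v i)) 1[∑ x (v i) < k]` (`TUP`) is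
lower semicontinuous: it is a sum of products of a nonnegative continuous function and the indicator
of the open condition `∑ x (v i) < k`. Use `LowerSemicontinuousOn.exists_isMinOn`. Alternative without
semicontinuity: for every set `A` of tuples `v : Fin k → ι` minimise the polynomial `∑_{v ∉ A} ∏ p (v i)`
over the compact set of feasible `(p, x)` with `∑ x (v i) ≥ k` for `v ∈ A`; take the best `A` (finitely
many); for a feasible point take `A = {v | ∑ x (v i) ≥ k}`. -/
def S_MIN : Prop := ∀ (ι : Type) [Fintype ι] (k : ℕ) (r : ℝ) (o t : ι),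
  (∃ p x : ι → ℝ, Feas k r o t p x) → ∃ p x : ι → ℝ, Mini k r o t p x

/-- MXT: mixing with an atom at `k` multiplies `P(S_n < k)` by `(1-s)^n` (tuples which use the extra
mass have sum at least `k`). Induction on `n` for functions `f` vanishing on `[k, ∞)`, arguments `≥ 0`. -/
def S_MXT : Prop := ∀ (ι : Type) [Fintype ι] [DecidableEq ι] (p x : ι → ℝ) (k : ℕ) (t : ι) (s : ℝ) (n : ℕ),
  (∀ i, 0 ≤ x i) → x t = k →
  PR (fun i => (1 - s) * p i + if i = t then s else 0) x n k = (1 - s) ^ n * PR p x n k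

/-- PSP: positivity for nonnegative weights: if `mu < 1` then some `i` has `p i > 0`, `x i < 1`, and
`P(S_n < k) ≥ (p i)^n > 0` for `n ≤ k`. -/
def S_PSP : Prop := ∀ (ι : Type) [Fintype ι] (p x : ι → ℝ) (k n : ℕ), 1 ≤ k → n ≤ k → (∀ i, 0 ≤ p i) →
  ∑ i, p i = 1 → (∀ i, 0 ≤ x i) → mu p x < 1 → 0 < PR p x n k

/-- STR (strictness): for a minimiser `(p, x)` and any other `(p', x')` with the same `o`, `t` and mean
`r' < r < 1`: mixing `(p', x')` with the atom `t` with `s = (r - r')/(k - r') ∈ (0,1)` gives a feasible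
point with value `(1-s)^k PR p' x' k k < PR p' x' k k` (`MXT`, `PSP`). -/
def S_STR : Prop := ∀ (ι : Type) [Fintype ι] (k : ℕ) (r : ℝ) (o t : ι) (p x p' x' : ι → ℝ), 1 ≤ k →
  r < 1 → Mini k r o t p x → (∀ i, 0 ≤ p' i) → ∑ i, p' i = 1 → (∀ i, 0 ≤ x' i) → (∀ i, x' i ≤ k) →
  x' o = 0 → x' t = k → mu p' x' < r → PR p x k k < PR p' x' k k

/-- MB1: bound (B1). Suppose `P(X > 0) > r`. For small `d > 0` (`d ≤ 1`, `d ≤ x i` for all `x i > 0`) let
`x' i = min k (x i + d (x i - 1))` if `x i > 0`, and `x' i = 0` if `x i = 0`. Then `0 ≤ x' ≤ k`, `x' t = k`,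
`mu p x' ≤ r + d (r - P(X > 0)) < r`, and `∑ x (v i) ≥ k` implies `∑ x' (v i) ≥ k`: if some entry is cut at
`k` this is clear, otherwise `∑ x' = S + d (S - N) ≥ k` where `N ≤ k ≤ S` is the number of positive
entries. So `PR p x' k k ≤ PR p x k k`, against `STR`. -/
def S_MB1 : Prop := ∀ (ι : Type) [Fintype ι] (k : ℕ) (r : ℝ) (o t : ι) (p x : ι → ℝ), 1 ≤ k →
  r < 1 → Mini k r o t p x → ∑ i, (if 0 < x i then p i else 0) ≤ r

/-- MB2: bound (B2). Suppose `k P(X > k/2) > r`. For small `d > 0` (`d ≤ 1`, and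
`d k^2 ≤ 2 x i - k` for all `x i > k/2`) let `x' i = (1+d) x i` if `x i ≤ k/2` and
`x' i = x i - d (k - x i)` if `x i > k/2`. Then `0 ≤ x' ≤ k`, `x' o = 0`, `x' t = k`,
`mu p x' = r + d (r - k P(X > k/2)) < r`. If `∑ x (v i) = S ≥ k` and `J` entries are `> k/2` then
`∑ x' = S + d (S - k J)`: for `J ≤ 1` this is `≥ k`; for `J ≥ 2` two big entries `a`, `b` give
`S - k ≥ a + b - k ≥ min (2a - k) (2b - k) ≥ d k^2 ≥ d k J`. So `PR p x' k k ≤ PR p x k k`, against
`STR`. -/
def S_MB2 : Prop := ∀ (ι : Type) [Fintype ι] (k : ℕ) (r : ℝ) (o t : ι) (p x : ι → ℝ), 1 ≤ k →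
  r < 1 → Mini k r o t p x → k * ∑ i, (if (k : ℝ) / 2 < x i then p i else 0) ≤ r

/-- DER: derivative of `PR` in the weights: the derivative at `0` of `u ↦ EE (p + u d) x k f` is
`k ∑ i, d i * EE p x (k-1) (fun s => f (s + x i))` (from the tuple formula `TUP`, or by induction on the
recursive definition with linearity). -/
def S_DER : Prop := ∀ (ι : Type) [Fintype ι] (p d x : ι → ℝ) (n : ℕ) (f : ℝ → ℝ),
  HasDerivAt (fun u : ℝ => EE (fun i => p i + u * d i) x (n + 1) f)
    ((n + 1 : ℝ) * ∑ i, d i * EE p x n (fun s => f (s + x i))) 0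

/-- KKT: for a minimiser there is a zero atom `i0` with `p i0 > 0` (`MB1`: `P(X = 0) ≥ 1 - r > 0`) and an
atom `a` with `p a > 0`, `x a > 0` (`r > 0`). Let `P i = PR p x (k-1) (k - x i)`. For `i` with `p i > 0` let
`d` be the sum of the unit vector of `i`, of `-x i/x a` times that of `a` and of `x i/x a - 1` times that of
`i0`: `∑ d = 0`, `∑ d x = 0`, and `p + u d` is feasible for small `u` of both signs, so the derivative
(`DER`) vanishes: `P i - (x i/x a) P a + (x i/x a - 1) P i0 = 0`. So `P i = P0 - b x i` with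
`P0 = P i0 = PR p x (k-1) k > 0` and `b = (P0 - P a)/x a ≥ 0`. If `b = 0` then, for all `i` in the support,
`P(k - x i ≤ S_{k-1} < k) = 0`. Let `a` be any support atom with `x a > 0`, `j ≥ 1` minimal with
`j x a ≥ k`; if `j ≤ k` the tuple of `j - 1` entries `a` and `k - j` entries `i0` has `S_{k-1} =
(j-1) x a < k ≤ (j-1) x a + x a`, positive probability, contradiction. If `k x a < k` for every support
atom, then `S_k < k` always, `PR = 1`, against the hypothesis `PR p x k k < 1`. So `b > 0`,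
`l = P0/b`. -/
def S_KKT : Prop := ∀ (ι : Type) [Fintype ι] (k : ℕ) (r : ℝ) (o t : ι) (p x : ι → ℝ), 2 ≤ k → 0 < r →
  r < 1 → Mini k r o t p x → PR p x k k < 1 →
  ∃ l : ℝ, 0 < l ∧ ∀ i, 0 < p i → PR p x (k - 1) (k - x i) = PR p x (k - 1) k * (1 - x i / l)

/-- RES: zero weights may be dropped. Induction on `n`. -/
def S_RES : Prop := ∀ (ι : Type) [Fintype ι] (p x : ι → ℝ), (∀ i, 0 ≤ p i) →
  ∀ [Fintype {i : ι // 0 < p i}],
  (∀ (n : ℕ) (f : ℝ → ℝ), EE (fun i : {i : ι // 0 < p i} => p i) (fun i => x i) n f = EE p x n f) ∧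
  (∀ g : ι → ℝ, ∑ i : {i : ι // 0 < p i}, p i * g i = ∑ i, p i * g i)

/-- STA (starting point): from a law on `ι` with mean `r` (`0 < r < 1 ≤ k`) one gets a feasible point on
`Option (Option ι)` (`o = none`, `t = some none`) whose value is at most `PR p x k k`: replace `x` by
`min x k` (this does not change `S_n < k`), with mean `m' ≤ r`, and mix with the atom at `k` with
`s = (r - m')/(k - m')` (`MXT`). -/
def S_STA : Prop := ∀ (ι : Type) [Fintype ι] (p x : ι → ℝ) (k : ℕ) (r : ℝ), 1 ≤ k → 0 < r → r < 1 →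
  (∀ i, 0 ≤ p i) → ∑ i, p i = 1 → (∀ i, 0 ≤ x i) → mu p x = r →
  ∃ p' x' : Option (Option ι) → ℝ, Feas k r none (some none) p' x' ∧ PR p' x' k k ≤ PR p x k k

/-- EXI: if no optimal law violates the bound then `KEY k` holds. If `KEY k` fails at some law, `STA` and
`MIN` give a minimiser with value `< 1 - r^k < 1`; restrict it to its support (`RES`); `KKT`, `MB1`,
`MB2` give all fields of `Opt` (zero atom: `P(X = 0) ≥ 1 - r > 0`). -/
def S_EXI : Prop := ∀ k : ℕ, 2 ≤ k → NoOpt k → KEY k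

/-- NUM: an optimal law gives `Num` with `h = hh k p x`, `w1 = PR p x (k-1) k`, `W = PR p x k k`; here
`lam k p x = 1 - r/l` (`LMB`). `va > 0`: there are a zero atom and (mean `> 0`) a positive atom. `P0`,
`XX`, `E3`, `LH`, `HL`, `TAF`, `PLF` give the fields (`BB k p x` is the expression in `P0`;
`l/h = 1 + (l/h - 1)`). -/
def S_NUM : Prop := ∀ (ι : Type) [Fintype ι] (p x : ι → ℝ) (k : ℕ) (r l : ℝ), 6 ≤ k → RC k r →
  Opt k p x r l → Num k r l (hh k p x) (PR p x (k - 1) k) (PR p x k k) ∧ (∀ i, x i ≤ l) ∧ 0 < va p x ∧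
    lam k p x = 1 - r / l

end Pool.Agent.Q54.EM
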