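import Pool.Agent.Q54.EM.StmD

/-!
# Project EM, group N: the numerical part

`Num` collects the inequalities which hold for the numbers `r = mean`, `l`, `h`, `w1`, `W` of an optimal
law; the zone statements refute them. Throughout `q = r/l`, `ka = r/k`, `c = k(1-r)/r` (so `r = 1 - c ka`
and `k = 1/ka - c`), `t = 1 - l/k` (so `ka = q (1-t)`), `e = l/h - 1`, `chi = h/r = 1/(q(1+e))`.
-/

set_option autoImplicit false

namespace Pool.Agent.Q54.EM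

open Finset

/-- upper bound for `phi(q) - phi(ka) - c e q f(q)` -/
noncomputable def Dp (q t c e : ℝ) : ℝ :=
  (1 / 2 - c) * q * t + (1 / 3 - c / 2) * q ^ 2 * (1 - (1 - t) ^ 2) +
    (1 / 4 - c / 3) * q ^ 3 * (1 - (1 - t) ^ 3) + (1 / 5 - c / 4) * q ^ 4 * (1 - (1 - t) ^ 4) +
    q ^ 5 / (6 * (1 - q)) - c * e * q * (1 + q / 2)

/-- lower bound for the gain in the persistence inequality -/
noncomputable def Gp (q e : ℝ) : ℝ :=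
  (1 - q) * (1 - 567 / 1000 * q) * e * (e / (36 / 10 * e + q)) / 2 *
    ((1 - 567 / 1000 * q) * (1 - 4 / 10 * (e / (36 / 10 * e + q))) - q)

/-- the numerical facts -/
structure Num (k : ℕ) (r l h w1 W : ℝ) : Prop where
  k6 : 6 ≤ k
  rc : RC k r
  l0 : 0 < l
  ql : r < l
  h0 : 0 < h
  hl : h ≤ l
  W0 : 0 < W
  WT : W < 1 - r ^ k
  w1e : W = w1 * (1 - r / l)
  w11 : w1 ≤ 1
  LH : k * (1 - r) ≤ (1 - r / l) * h
  XX : (1 - r / l) * ((1 - h / k) - k * (1 - √(1 - r / l)) ^ 2) ≤ l - h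
  P0 : (1 - r / l) * l ≤ (1 - h / k) + (k - 1) * (r - (1 - h / k)) →
    (1 - r / l) * l * (1 - h / k) ^ 2 ≤ r * (l - h) * ((1 - h / k) + (k - 1) * (r - (1 - h / k)))
  E3 : k * (1 - r) + r * (1 - w1) ≤ W * h
  TA : - Real.log W ≤ (1 - k * (1 - r) / h) * ff (r / l)
  PL : ∀ c nu : ℝ, 0 < c → c ≤ 1 / 2 → r / l ≤ 1 / 2 → r / l * (l / h) * c < 1 →
    (1 - r / l) * (l / h) ≤ nu * (1 - r / l * (l / h) * c) →
    c * ((l / h - 1) * (l / h) * (3 - r / l) + r / l) ≤ l / h - 1 →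
    1 ≤ (1 - k * (1 - r) / h) * (1 - nu * c) * (1 + (1 - r / l) / (l / h)) →
    r / l ≤ (1 - k * (1 - r) / h) * (1 - nu * c) →
    - Real.log W ≤ (1 - k * (1 - r) / h) * ff (r / l) - (1 - r / l) * (1 - k * (1 - r) / h) *
      (l / h - 1) * c / 2 * ((1 - k * (1 - r) / h) * (1 - nu * c / 3) - r / l)

/-- CS (the constants). With `a = r/k`, `c = k(1-r)/r`, `T = 1 - r^k = (1-a)^k`, so `k = 1/a - c`,
`r = 1 - c a`. Let `F(s) = s^k + (1-s/k)^k`, strictly convex on `[0,1]`, `F(0) = 1`, `F(r) = 1`: for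
`0 < s < 1`, `F(s) ≥ 1` implies `r ≤ s` and `F(s) ≤ 1` implies `s ≤ r`. Now `c ≥ b` iff `r ≤ k/(k+b)`, and
`F(k/(k+b)) = (1 + b/k)^(-k) + (1 - 1/(k+b))^k`. (1) `c ≥ 0.458`: test `b = 0.458`. (2) `c ≤ 0.4724`: test
`b = 0.4724` (worst case `k = 6`, value of `1 - F` about `7e-5`; for `k ≥ 7` more room). (3)
`c ≥ 0.458 + 0.088 a`: test `b = 0.458 + 0.088/(k + 0.458)` (it is `≥ 0.458 + 0.088 a` as
`a = 1/(k+c) ≤ 1/(k + 0.458)`); margin `4e-4` or more in `c`. For `F` use logarithms: with `z = 1/k`,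
`-(1/z) log(1 + b z) = -b + b^2 z/2 - b^3 z^2/3 + ...` and, with `y = 1/(k+b)`, `k log(1 - y) =
-(1 - b y)(1 + y/2 + y^2/3 + ...) = -1 - (1/2 - b) y - (1/3 - b/2) y^2 - ...`; then compare the
exponentials with `exp(-0.458)` and `exp(-1)` (`1 - exp(-1) = exp(-0.458675145...)`). Equivalent form,
maybe simpler: `c (1 - c a/2 - (c a)^2/6 - ...) = - log(1 - T)`, where `- log T = r f(a) =
1 + (1/2 - c) a + (1/3 - c/2) a^2 + ...`. (4) `a ≤ 0.15456` from `a = 1/(k+c)`, `k ≥ 6` and (3).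
(5) `T ≤ e^(-1)`; `T ≥ 0.365`; `(1+c)/T = (1+c) e^{r f(a)}` is increasing in `c` for fixed `a`, so put
`c = 0.458 + 0.088 a`: it is at least `(1.458 + 0.088 a) e (1 + (0.042 - 0.088 a) a + ...)`, whose slope
in `a` is about `0.405`. (All checked numerically for `k ≥ 6`: `(c - 0.458)/a ≥ 0.0920`,
`T - 0.365 ≥ 0.0003`, `(1+c)/T - 3.963 - 0.39 a ≥ 0.002`.) -/
def S_CS : Prop := ∀ (k : ℕ) (r : ℝ), 6 ≤ k → RC k r →
  0 < r / k ∧ r / k ≤ 15456 / 100000 ∧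
  458 / 1000 + 88 / 1000 * (r / k) ≤ k * (1 - r) / r ∧ k * (1 - r) / r ≤ 4724 / 10000 ∧
  365 / 1000 ≤ 1 - r ^ k ∧ 1 - r ^ k ≤ 3679 / 10000 ∧
  3963 / 1000 + 39 / 100 * (r / k) ≤ (1 + k * (1 - r) / r) / (1 - r ^ k) ∧
  - Real.log (1 - r ^ k) = r * ff (r / k) ∧ 92 / 100 ≤ r

/-- SER (series bounds): `f(q) = 1 + q/2 + q^2/3 + ...`. (1) lower: finite sums; (2) upper: four terms and
the tail `q^5/(6(1-q))`; (3) the difference `phi(q) - phi(x)` with `phi(q) = (1 - c q) f(q)`,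
`x = q (1-t) < q`: `phi(q) ≤ 1 + ∑_{j≤4} a_j q^j + q^5/(6(1-q))`, `phi(x) ≥ 1 + ∑_{j≤4} a_j x^j`,
`a_j = 1/(j+1) - c/j`. (4) `phi` is monotone (`a_j ≥ 0`). -/
def S_SER : Prop := ∀ q t c : ℝ, 0 < q → q ≤ 7 / 10 → 0 ≤ t → t < 1 → 45 / 100 ≤ c → c ≤ 48 / 100 →
  1 + q / 2 + q ^ 2 / 3 + q ^ 3 / 4 + q ^ 4 / 5 + q ^ 5 / 6 ≤ ff q ∧
  ff q ≤ 1 + q / 2 + q ^ 2 / 3 + q ^ 3 / 4 + q ^ 4 / 5 + q ^ 5 / (6 * (1 - q)) ∧
  (∀ e : ℝ, 0 ≤ e → (1 - c * q * (1 + e)) * ff q - (1 - c * (q * (1 - t))) * ff (q * (1 - t)) ≤ Dp q t c e) ∧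
  (∀ x : ℝ, 0 < x → x ≤ q → (1 - c * x) * ff x ≤ (1 - c * q) * ff q)

/-- BXA (box check, zone A). The hypothesis is `e (1 - (1-q) q (R - w)) ≥ (1-q) q (t R - w)` with
`R = 1/(1 - c ka)`, `w = q/((1-t)(1+√(1-q))^2)`. Use `(1+√(1-q))^2 ≥ M(q) = 4 - 2q - q^2/4 - 0.16 q^3`.
Box `[q1,q2] x [t1,t2]` (skip it when `kl = q1 (1-t2) > 0.15456`): `c1 = 0.458 + 0.088 kl ≤ c`,
`R1 = 1 + c1 kl ≤ R`; `wa = q2/((1-t1) M(q2))`, `wb = q2/((1-t2) M(q2))`;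
`N = (1-q2)(t1 R1 - wa)`, `D = 1 - (1-q1) q1 (R1 - wb)`, `e1 = N/D`. Then `e ≥ q e1`
(`t ↦ t R1 - q2/((1-t) M(q2))` is increasing since `q2 ≤ M(q2)(1-t)^2` for `q2 ≤ 0.3`, `t ≤ 0.7`;
`q (1-q)` is increasing; in the hypothesis replace `R` by `R1`). With `y = 1 - 0.567 q2`,
`d = e1/(3.6 e1 + 1)` the check is
`(1-q2) y e1 d/2 (y (1 - 0.4 d) - q2) > (1/2-c1) t2 + (1/3-c1/2) q2 (1-(1-t2)^2) + (1/4-c1/3) q2^2
(1-(1-t2)^3) + (1/5-c1/4) q2^3 (1-(1-t2)^4) + q2^4/(6(1-q2)) - c1 e1 q1 (1 + q1/2)`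
(both sides divided by `q`; `Gp q e/q` is increasing in `e/q` and decreasing in `q`). Bisecting
`[0,0.3] x [0.2,0.7]` (split `q` when `q2 - q1 > 0.5 (t2 - t1)`, else `t`) gives about 155 boxes. -/
def S_BXA : Prop := ∀ q t c e : ℝ, 0 < q → q ≤ 3 / 10 → 2 / 10 ≤ t → t ≤ 7 / 10 →
  q * (1 - t) ≤ 15456 / 100000 → 458 / 1000 + 88 / 1000 * (q * (1 - t)) ≤ c → c ≤ 4724 / 10000 →
  0 ≤ e → e ≤ 2 / 10 →
  (1 - q) * q * (t * (1 / (1 - c * (q * (1 - t)))) - q / ((1 - t) * (1 + √(1 - q)) ^ 2)) ≤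
    e * (1 - (1 - q) * q * (1 / (1 - c * (q * (1 - t))) - q / ((1 - t) * (1 + √(1 - q)) ^ 2))) →
  Dp q t c e < Gp q e

/-- BXB (box check, zone B). Put `ka = q (1-t)`, `rho = 1 - c ka`. The hypothesis is a disjunction: (i)
`rho e (q (1+e)(1 - c (rho - ka)) + rho - 2 ka) ≥ (1-q) q (t + e)^2`, or (ii) the premise of P0 fails:
`q (1 - c (rho - ka)) + (rho - 2 ka)/(1+e) < (1-q) rho`. Box `[q1,q2] x [t1,t2]`:
`kl = q1 (1-t2)`, `c1 = 0.458 + 0.088 kl`,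
`A = (1 - c1 kl)(1.2 q2 (1 - c1 + c1 kl (1+c1)) + 1 - (c1+2) kl)` bounds the bracket times `rho` from above
(it is decreasing in `ka` and `c`); with `e = q x` (i) says `A x ≥ (1-q2)(t1 + q1 x)^2`; if
`(1-q2)(t1 + q1 e1)^2 > A e1` and `2 (1-q2) q1 (t1 + q1 e1) ≤ A` then `x ≥ e1` (convexity). Take for `e1`
the smaller root minus a little (or `e1 = 2` if there is no root and it passes). In case (ii): if
`x < e1` then `1/(1+e) ≥ 1 - q e1` and (ii) would give (divide by `q`)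
`2 - c + c^2 ka < 2 (1-t) + (1 - c ka - 2 ka) e1`, so it is enough to check
`e1 ≤ 2 t1 - 0.4724`; so `x ≥ e1` again. The final check is the
same as in `BXA`. About 29 boxes on `[0,0.3] x [0.7,1]`. -/
def S_BXB : Prop := ∀ q t c e : ℝ, 0 < q → q ≤ 3 / 10 → 7 / 10 ≤ t → t < 1 →
  q * (1 - t) ≤ 15456 / 100000 → 458 / 1000 + 88 / 1000 * (q * (1 - t)) ≤ c → c ≤ 4724 / 10000 →
  0 ≤ e → e ≤ 2 / 10 →
  ((1 - q) * q * (t + e) ^ 2 ≤ (1 - c * (q * (1 - t))) * e *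
    (q * (1 + e) * (1 - c * (1 - c * (q * (1 - t)) - q * (1 - t))) + (1 - c * (q * (1 - t))) -
      2 * (q * (1 - t))) ∨
   q * (1 - c * (1 - c * (q * (1 - t)) - q * (1 - t))) +
      (1 - c * (q * (1 - t)) - 2 * (q * (1 - t))) / (1 + e) < (1 - q) * (1 - c * (q * (1 - t)))) →
  Dp q t c e < Gp q e

/-- BXC (box check, zone C): as `BXB`, but the final check is
`(1/2-c1) t2 + (1/3-c1/2) q2 (1-(1-t2)^2) + (1/4-c1/3) q2^2 (1-(1-t2)^3) + (1/5-c1/4) q2^3 (1-(1-t2)^4) +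
q2^4/(6(1-q2)) < c1 e1 q1 (1 + q1/2)`. About 95 boxes on `[0.3,0.37] x [0.48,1]` (skip `kl > 0.15456`).
-/
def S_BXC : Prop := ∀ q t c e : ℝ, 3 / 10 ≤ q → q ≤ 37 / 100 → 48 / 100 ≤ t → t < 1 →
  q * (1 - t) ≤ 15456 / 100000 → 458 / 1000 + 88 / 1000 * (q * (1 - t)) ≤ c → c ≤ 4724 / 10000 →
  0 ≤ e → e ≤ 2 / 10 →
  (1 - q) * q * (t + e) ^ 2 ≤ (1 - c * (q * (1 - t))) * e *
    (q * (1 + e) * (1 - c * (1 - c * (q * (1 - t)) - q * (1 - t))) + (1 - c * (q * (1 - t))) -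
      2 * (q * (1 - t))) →
  Dp q t c e < 0

/-- BXD (box check, zone D). `G(x) = (1-q)(1 - a x)^2 - (1 - c a)(1 - q x) B`, `a = ka`,
`B = 1 - c (1 - c a - a) + (1 - c a - 2 a) x = (1 - c + x) + a (c^2 + c - (c+2) x)`. Box
`[q1,q2] x [a1,a2]`, `c1 = 0.458 + 0.088 a1`, `c2 = 0.4724`, `x0 = 3.963 + 0.39 a1 - 1/(1-q2)`;
lower bound of `G(x0)`: `(1-q2)(1 - a2 x0)^2 - (1 - c1 a1)(1 - q1 x0)((1 - c1 + x0) + a1 (c1^2 + c1 -
(c1+2) x0))`; lower bound of `G'(x0)`: `(1 - c2 a2) q1 ((1 - c2 + x0) + a2 (c2^2 + c2 - (c2+2) x0)) -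
2 (1-q1) a2 (1 - a1 x0) - (1 - q1 x0)(1 - 2 a1)`; `G` is convex in `x` on the relevant range (its second
derivative is `2 (1-q) a^2 + 2 (1 - c a) q (1 - c a - 2 a) > 0`), so `G(x) > 0` for `x ≥ x0` if both are
`> 0`. About 29 boxes on `[0.37,0.62] x [0,0.15456]` (split `q` when `q2 - q1 > 0.3 (a2 - a1)`, else
`a`). (Check the signs used in the corner bounds: `1 - q x ≥ 0` may be assumed, otherwise `G > 0` is
clear since `B > 0`.) -/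
def S_BXD : Prop := ∀ q a c x : ℝ, 37 / 100 ≤ q → q ≤ 62 / 100 → 0 ≤ a → a ≤ 15456 / 100000 →
  458 / 1000 + 88 / 1000 * a ≤ c → c ≤ 4724 / 10000 →
  3963 / 1000 + 39 / 100 * a - 1 / (1 - q) ≤ x → a * x ≤ 1 →
  (1 - c * a) * (1 - q * x) * (1 - c * (1 - c * a - a) + (1 - c * a - 2 * a) * x) <
    (1 - q) * (1 - a * x) ^ 2

/-- BXE (box check, zone E): same as `BXD` with
`x0 = (c1 + 0.06 q1/(1 - c1 a1)^2)/(1 - q1)`; about 25 boxes on `[0.62,0.686] x [0,0.15456]` (split `q`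
when `q2 - q1 > 0.3 (a2 - a1)`). -/
def S_BXE : Prop := ∀ q a c x : ℝ, 62 / 100 ≤ q → q ≤ 686 / 1000 → 0 ≤ a → a ≤ 15456 / 100000 →
  458 / 1000 + 88 / 1000 * a ≤ c → c ≤ 4724 / 10000 →
  (c + 6 / 100 * q / (1 - c * a) ^ 2) / (1 - q) ≤ x → a * x ≤ 1 →
  (1 - c * a) * (1 - q * x) * (1 - c * (1 - c * a - a) + (1 - c * a - 2 * a) * x) <
    (1 - q) * (1 - a * x) ^ 2

/-- NT (rewriting): with `q = r/l`, `ka = r/k`, `c = k(1-r)/r`, `t = 1 - l/k`, `e = l/h - 1`,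
`x = h/r`: the elementary identities, and the consequences of `Num`:
(1) `TA` and `WT`: `(1 - c ka) f(ka) < (1 - c q (1+e)) f(q)` (as `-log W > -log(1-r^k) = r f(ka)`);
(2) `XX` in the form used in `BXA`: multiply by `1/h`; `1/h = (1+e) q/r`, `1/k = q (1-t)/r`,
`(1-√(1-q))^2 = q^2/(1+√(1-q))^2`, `k/h = (1+e)/(1-t)·` `...` so `k (1-√(1-q))^2/h =
(1+e) q^2/((1-t)(1+√(1-q))^2)`; (3) `P0` (when its premise holds) divided by `l`: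
`(1-q)(1 - ka x)^2 ≤ r (1 - q x) B` with `B = 1 - c (1 - c ka - ka) + (1 - c ka - 2 ka) x`, the premise
being `(1-q) r/q ≤ B`; and with `x = 1/(q(1+e))`, times `q (1+e)^2`, the form in `BXB`;
(4) `E3` divided by `r`: `(1 + c)/W - 1/(1-q) ≤ x`, hence `(1+c)/(1 - r^k) - 1/(1-q) < x`;
(5) `LH`: `c/(1-q) ≤ x`, and `x ≤ 1/q`. -/
def S_NT : Prop := ∀ (k : ℕ) (r l h w1 W q a c t e x B : ℝ), Num k r l h w1 W → q = r / l → a = r / k →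
  c = k * (1 - r) / r → t = 1 - l / k → e = l / h - 1 → x = h / r →
  B = 1 - c * (1 - c * a - a) + (1 - c * a - 2 * a) * x →
  r = 1 - c * a ∧ a = q * (1 - t) ∧ 0 < q ∧ q < 1 ∧ 0 < a ∧ 0 ≤ e ∧ t < 1 ∧ x = 1 / (q * (1 + e)) ∧
  1 - k * (1 - r) / h = 1 - c * q * (1 + e) ∧ c ≤ (1 - q) * x ∧ x ≤ 1 / q ∧ a * x ≤ 1 ∧
  (1 - c * a) * ff a < (1 - c * q * (1 + e)) * ff q ∧
  (1 - q) * q * (t * (1 / (1 - c * a)) - q / ((1 - t) * (1 + √(1 - q)) ^ 2)) ≤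
    e * (1 - (1 - q) * q * (1 / (1 - c * a) - q / ((1 - t) * (1 + √(1 - q)) ^ 2))) ∧
  ((1 - q) * (1 - c * a) ≤ q * B → (1 - q) * (1 - a * x) ^ 2 ≤ (1 - c * a) * (1 - q * x) * B) ∧
  ((1 - q) * (1 - c * a) ≤ q * B → (1 - q) * q * (t + e) ^ 2 ≤ (1 - c * a) * e *
    (q * (1 + e) * (1 - c * (1 - c * a - a)) + (1 - c * a) - 2 * a)) ∧
  (1 + c) / (1 - r ^ k) - 1 / (1 - q) < x

/-- EB (bound for `e`): from (1) of `NT` and `SER` (3), `c e q (1 + q/2) < ∑_{j≤4} a_j q^j + q^5/(6(1-q))`,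
which gives `e ≤ 2/10` for `q ≤ 37/100`; and for `0 < t ≤ 2/10` (then `q ≤ 0.1932`), using
`1 - (1-t)^j ≤ j t` and the tail `phi`-difference `∑_{j≥5} ≤ q^5 ...` (for the tail: `a_j (q^j - ka^j) ≤
q^j j t/(j+1)`, i.e. `∑_{j≥5} a_j (q^j - ka^j) ≤ t q^5/(1-q)`), `e ≤ 2/10 t`. For the second one may use
instead: `phi(q) - phi(ka) ≤ (q - ka) sup phi'` and `phi' = ((1/(1-q) - f)(1 - c q)/q - c f)`,
`q - ka = q t`. -/
def S_EB : Prop := ∀ q t c e : ℝ, 0 < q → q ≤ 37 / 100 → 0 < t → t < 1 → 45 / 100 ≤ c →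
  458 / 1000 + 88 / 1000 * (q * (1 - t)) ≤ c → c ≤ 4724 / 10000 → q * (1 - t) ≤ 15456 / 100000 →
  0 ≤ e → (1 - c * (q * (1 - t))) * ff (q * (1 - t)) < (1 - c * q * (1 + e)) * ff q →
  e ≤ 2 / 10 ∧ (t ≤ 2 / 10 → e ≤ 2 / 10 * t)

/-- BP (premise of P0): `(1-q) rho ≤ q B` in three cases (rational inequalities, margins at least
`0.065`). -/
def S_BP : Prop := ∀ q a c x : ℝ, 0 < q → q < 1 → 0 ≤ a → a ≤ 15456 / 100000 →
  458 / 1000 + 88 / 1000 * a ≤ c → c ≤ 4724 / 10000 →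
  ((q ≤ 37 / 100 ∧ 3 / 10 ≤ q ∧ 1 / (q * (118 / 100)) ≤ x) ∨
   (37 / 100 ≤ q ∧ q ≤ 62 / 100 ∧ 3963 / 1000 + 39 / 100 * a - 1 / (1 - q) ≤ x) ∨
   (62 / 100 ≤ q ∧ q ≤ 686 / 1000 ∧ c / (1 - q) ≤ x)) →
  (1 - q) * (1 - c * a) ≤ q * (1 - c * (1 - c * a - a) + (1 - c * a - 2 * a) * x)

/-- E18: for `3/10 ≤ q ≤ 37/100`, `e ≤ 18/100` (from (1) of `NT`, same as `EB`). -/
def S_E18 : Prop := ∀ q t c e : ℝ, 3 / 10 ≤ q → q ≤ 37 / 100 → 0 < t → t < 1 →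
  458 / 1000 + 88 / 1000 * (q * (1 - t)) ≤ c → c ≤ 4724 / 10000 → q * (1 - t) ≤ 15456 / 100000 →
  0 ≤ e → (1 - c * (q * (1 - t))) * ff (q * (1 - t)) < (1 - c * q * (1 + e)) * ff q → e ≤ 18 / 100

/-- PLS (persistence with special parameters). In `Num.PL` take `c := d = e/(3.6 e + q)`, `nu = 6/5`
(`e > 0`; for `e = 0` use `TA`), for `q ≤ 3/10`, `e ≤ 2/10`, `y0 = 1 - c q (1+e) ≥ 1 - 0.567 q`. The
conditions: `d ≤ 1/3.6`; `(1-q)(1+e) ≤ 1.2 (1 - q (1+e) d)`; `d (e(1+e)(3-q) + q) ≤ e` as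
`(1+e)(3-q) ≤ 3.6`; `1 ≤ y0 (1 - 1.2 d)(1 + (1-q)/(1+e))` (worst case `q = 0.3`, `e = 0.2`, value
about `1.005`); `q ≤ y0 (1 - 1.2 d)`. The gain is increasing in `y0`, so it is at least `Gp q e`. The
conclusion: `(1 - c a) f(a) < (1 - c q (1+e)) f(q) - Gp q e`. -/
def S_PLS : Prop := ∀ (k : ℕ) (r l h w1 W q a c t e : ℝ), Num k r l h w1 W → q = r / l → a = r / k →
  c = k * (1 - r) / r → t = 1 - l / k → e = l / h - 1 → q ≤ 3 / 10 → e ≤ 2 / 10 →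
  (1 - c * a) * ff a < (1 - c * q * (1 + e)) * ff q - Gp q e

/-- Z0 (zone `l ≥ k`, i.e. `q ≤ ka`): by `TA` and `NT`, `(1 - c a) f(a) < (1 - c q (1+e)) f(q) ≤
(1 - c q) f(q) ≤ (1 - c a) f(a)` (`SER` (4)). -/
def S_Z0 : Prop := ∀ (k : ℕ) (r l h w1 W : ℝ), Num k r l h w1 W → l < k

/-- ZT (zones A to D together): `Num` is impossible for `t ≥ 2/10` (i.e. `l ≤ 0.8 k`) and `q ≤ 62/100`.
`e ≤ 0.2` for `q ≤ 0.37` (`EB`). `q ≤ 0.3`: `PLS` and `SER` (3) give `Gp < Dp`, against `BXA` (`t ≤ 0.7`)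
or `BXB` (`t ≥ 0.7`; either the premise of `P0` holds or not). `0.3 < q ≤ 0.37`: then `t ≥ 1 - 0.15456/0.3 > 0.48`; `TA` and `SER` (3) give
`0 < Dp`, against `BXC` (premise of `P0` by `BP` and `E18`, as `x = 1/(q(1+e))`). `q > 0.37`: `NT` (4) with `CS` gives the hypothesis of `BXD`, against `P0`. -/
def S_ZT : Prop := ∀ (k : ℕ) (r l h w1 W : ℝ), Num k r l h w1 W → r / l ≤ 62 / 100 → 8 / 10 * k < l

/-- ZE (zone E): for `q ≥ 62/100`, `l ((1-q) h - k (1-r)) ≤ 6/100` and `l ≤ 1613/1000`. By `LH`,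
`c/(1-q) ≤ x ≤ 1/q`, so `q ≤ 1/(1+c) ≤ 0.686`. If `l zeta > 0.06` with `zeta = (1-q) h - k(1-r)` then
`x = (c + zeta/r)/(1-q) ≥ (c + 0.06 q/r^2)/(1-q)`, against `BXE` and `P0` (premise by `BP`). -/
def S_ZE : Prop := ∀ (k : ℕ) (r l h w1 W : ℝ), Num k r l h w1 W → 62 / 100 < r / l →
  l * ((1 - r / l) * h - k * (1 - r)) ≤ 6 / 100 ∧ l ≤ 1613 / 1000

end Pool.Agent.Q54.EM
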